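import Pool.Agent.Lib.MP_1e63be_al.Z87.Basic

/-! Polynomials in a transcendental endomorphism of a simple module are injective. -/

namespace Z54

open Z87 Polynomial

variable {F R : Type} [Field F] [Ring R] [Algebra F R] {J : RI R}

theorem idz_inj (hJ : MaxR J) {c z : R} (hc : Idz J c) (hc' : c ∉ J) (hz : c * z ∈ J) : z ∈ J := by
  by_contra hz'
  obtain ⟨y, hy⟩ := hJ.2 z hz'
  exact hc' (RI.cast (J.sub_mem (RI.mul hz y) (hc _ hy)) (by noncomm_ring))

theorem indD [IsAlgClosed F] (hJ : MaxR J) {r : R} (hr : Idz J r)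
    (hl : ∀ l : F, r - algebraMap F R l ∉ J) (c : F[X]) (hc : c ≠ 0) (z : R)
    (h : aeval r c * z ∈ J) : z ∈ J := by
  induction hn : c.natDegree generalizing c z with
  | zero =>
    obtain ⟨l, rfl⟩ := natDegree_eq_zero.1 hn
    have hl0 : l ≠ 0 := fun e => hc (by simp [e])
    refine RI.cast (RI.mul h (algebraMap F R l⁻¹)) ?_
    rw [aeval_C, Algebra.commutes, mul_assoc, ← map_mul, mul_inv_cancel₀ hl0, map_one, mul_one]
  | succ n ih =>
    obtain ⟨l, hl'⟩ := IsAlgClosed.exists_root c (by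
      rw [degree_eq_natDegree hc, hn]; exact_mod_cast n.succ_ne_zero)
    obtain ⟨d, rfl⟩ := dvd_iff_isRoot.2 hl'
    have hd : d ≠ 0 := fun e => hc (by simp [e])
    rw [natDegree_mul (X_sub_C_ne_zero l) hd, natDegree_X_sub_C] at hn
    refine ih d hd z (idz_inj hJ (c := r - algebraMap F R l) (fun j hj => ?_) (hl l) ?_) (by omega)
    · rw [sub_mul, Algebra.commutes]
      exact J.sub_mem (hr j hj) (RI.mul hj _)
    · simpa [mul_assoc] using h

/-- the form with coefficients -/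
theorem indD' [IsAlgClosed F] (hJ : MaxR J) {r : R} (hr : Idz J r)
    (hl : ∀ l : F, r - algebraMap F R l ∉ J) (s : Finset ℕ) (c : ℕ → F) (hc : ∃ j ∈ s, c j ≠ 0)
    (z : R) (h : (∑ j ∈ s, c j • r ^ j) * z ∈ J) : z ∈ J := by
  obtain ⟨j, hj, hc⟩ := hc
  refine indD hJ hr hl (∑ j ∈ s, monomial j (c j)) (fun e => hc ?_) z ?_
  · simpa [coeff_monomial, hj] using congrArg (coeff · j) e
  · simpa [aeval_monomial, Algebra.smul_def] using h

end Z54
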