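import Pool.Agent.Lib.MP_1e63be_al.Z87.Defs

/-! The algebra of endomorphisms of a countable dimensional space modulo finite rank is good. -/

namespace Z54

open Z87

variable (F : Type) [Field F] (W : Type) [AddCommGroup W] [Module F W]

abbrev EE := Module.End F W

/-- finite rank operators -/
def finR : Ideal (EE F W) where
  carrier := {y | ∃ U : Submodule F W, FiniteDimensional F U ∧ ∀ v, y v ∈ U}
  add_mem' := by
    rintro a b ⟨U, h1, h2⟩ ⟨V, h3, h4⟩
    exact ⟨U ⊔ V, inferInstance, fun v => Submodule.add_mem_sup (h2 v) (h4 v)⟩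
  zero_mem' := ⟨⊥, inferInstance, fun v => by simp⟩
  smul_mem' := by
    rintro c a ⟨U, h1, h2⟩
    exact ⟨U.map c, inferInstance, fun v => Submodule.mem_map_of_mem (h2 v)⟩

instance : (finR F W).IsTwoSided where
  mul_mem_of_left := by
    rintro a b ⟨U, h1, h2⟩
    exact ⟨U, h1, fun v => h2 _⟩

variable {F W}

theorem ee_reg (y : EE F W) : ∃ z, y * z * y = y := by
  obtain ⟨g, hg⟩ := y.rangeRestrict.exists_rightInverse_of_surjective y.range_rangeRestrict
  obtain ⟨p, hp⟩ := (LinearMap.range y).subtype.exists_leftInverse_of_injective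
    (Submodule.ker_subtype _)
  refine ⟨g ∘ₗ p, LinearMap.ext fun v => ?_⟩
  have h1 : p (y v) = ⟨y v, v, rfl⟩ := LinearMap.congr_fun hp ⟨y v, v, rfl⟩
  have h2 := congrArg Subtype.val (LinearMap.congr_fun hg ⟨y v, v, rfl⟩)
  simpa [h1] using h2

theorem ee_inj (b0 : Module.Basis ℕ F W) (U : Submodule F W) (h : ¬ FiniteDimensional F U) :
    ∃ t : EE F W, LinearMap.ker t = ⊥ ∧ ∀ v, t v ∈ U := by
  let b := Module.Basis.ofVectorSpace F U
  have hi : Infinite (Module.Basis.ofVectorSpaceIndex F U) := by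
    by_contra hf
    have := not_infinite_iff_finite.1 hf
    exact h (Module.Finite.of_basis b)
  have hl := b.linearIndependent.comp _ (Infinite.natEmbedding _).injective
  refine ⟨U.subtype ∘ₗ Finsupp.linearCombination F (b ∘ Infinite.natEmbedding _) ∘ₗ
    b0.repr.toLinearMap, ?_, fun v => Subtype.prop _⟩
  rw [LinearMap.ker_eq_bot]
  intro x y h
  exact b0.repr.injective (hl (Subtype.val_injective h))

theorem ee_pi (b0 : Module.Basis ℕ F W) (y : EE F W) (h : y ∉ finR F W) : ∃ s t, s * y * t = 1 := by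
  obtain ⟨z, hz⟩ := ee_reg y
  obtain ⟨t, h1, h2⟩ := ee_inj b0 (LinearMap.range y) fun k => h ⟨_, k, fun v => ⟨v, rfl⟩⟩
  obtain ⟨s, hs⟩ := t.exists_leftInverse_of_injective h1
  refine ⟨s, z * t, LinearMap.ext fun v => ?_⟩
  obtain ⟨w, hw⟩ := h2 v
  have h3 : y (z (y w)) = y w := LinearMap.congr_fun hz w
  have h4 : s (t v) = v := LinearMap.congr_fun hs v
  simp only [Module.End.mul_apply, Module.End.one_apply]
  rw [← hw, h3, hw, h4]

theorem ee_nt (b0 : Module.Basis ℕ F W) : (1 : EE F W) ∉ finR F W := by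
  rintro ⟨U, h1, h2⟩
  have : U = ⊤ := eq_top_iff.2 fun v _ => h2 v
  subst this
  have : FiniteDimensional F W := Submodule.topEquiv.finiteDimensional
  exact Module.Finite.not_linearIndependent_of_infinite _ b0.linearIndependent

theorem ee_lea (b0 : Module.Basis ℕ F W) : ∃ i0 i1 j0 j1 : EE F W, j0 * i0 = 1 ∧ j1 * i1 = 1 ∧ j0 * i1 = 0 ∧ j1 * i0 = 0 ∧
    i0 * j0 + i1 * j1 = 1 := by
  let e : W ≃ₗ[F] W × W := b0.equiv (b0.prod b0) Equiv.natSumNatEquivNat.symm
  refine ⟨e.symm.toLinearMap ∘ₗ LinearMap.inl _ _ _, e.symm.toLinearMap ∘ₗ LinearMap.inr _ _ _,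
    LinearMap.fst _ _ _ ∘ₗ e.toLinearMap, LinearMap.snd _ _ _ ∘ₗ e.toLinearMap, ?_, ?_, ?_, ?_, ?_⟩
  all_goals refine LinearMap.ext fun v => ?_
  all_goals generalize e = e
  · simp
  · simp
  · simp
  · simp
  · apply e.injective
    simp

theorem ee_cen (b0 : Module.Basis ℕ F W) (C : EE F W) :
    (∃ s t : EE F W, s * t = 1 ∧ s * C * t = 0) ∨ ∃ l : F, C - algebraMap F _ l ∈ finR F W := by
  obtain ⟨U, hU⟩ := zorn_le₀ {U : Submodule F W | ∀ u ∈ U, C u ∈ U → u = 0} (by
    intro c hc hch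
    rcases c.eq_empty_or_nonempty with rfl | hne
    · exact ⟨⊥, fun u hu _ => hu, by simp⟩
    refine ⟨sSup c, fun u h1 h2 => ?_, fun z hz => le_sSup hz⟩
    obtain ⟨A, h3, h4⟩ := (Submodule.mem_sSup_of_directed hne hch.directedOn).1 h1
    obtain ⟨B, h5, h6⟩ := (Submodule.mem_sSup_of_directed hne hch.directedOn).1 h2
    obtain ⟨D, h7, h8, h9⟩ := hch.directedOn A h3 B h5
    exact hc h7 u (h8 h4) (h9 h6))
  by_cases hf : FiniteDimensional F U
  · right
    let U2 := U ⊔ U.map C
    have key : ∀ v, v ∉ U2 → ∃ l : F, C v - l • v ∈ U2 := by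
      intro v hv
      by_contra hn
      push Not at hn
      refine hv (Submodule.mem_sup_left (hU.2 (y := U ⊔ Submodule.span F {v}) ?_ le_sup_left
        (Submodule.mem_sup_right (Submodule.mem_span_singleton_self v))))
      intro w h1 h2
      obtain ⟨u, h3, _, h4, rfl⟩ := Submodule.mem_sup.1 h1
      obtain ⟨m, rfl⟩ := Submodule.mem_span_singleton.1 h4
      obtain ⟨u', h5, _, h6, h7⟩ := Submodule.mem_sup.1 h2
      obtain ⟨n, rfl⟩ := Submodule.mem_span_singleton.1 h6
      rw [map_add, map_smul] at h7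
      have h8 : u' - C u ∈ U2 := U2.sub_mem (Submodule.mem_sup_left h5)
        (Submodule.mem_sup_right (Submodule.mem_map_of_mem h3))
      have h9 : u' - C u = m • C v - n • v := by
        rw [sub_eq_sub_iff_add_eq_add, h7, add_comm]
      by_cases hm : m = 0
      · subst hm
        by_cases hn0 : n = 0
        · subst hn0
          simp only [zero_smul, add_zero] at h7 ⊢
          exact hU.1 u h3 (h7 ▸ h5)
        · rw [h9, zero_smul, zero_sub, neg_mem_iff] at h8
          exact (hv ((U2.smul_mem_iff hn0).1 h8)).elim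
      · refine (hn (m⁻¹ * n) ((U2.smul_mem_iff hm).1 ?_)).elim
        rwa [smul_sub, smul_smul, mul_inv_cancel_left₀ hm, ← h9]
    obtain ⟨v0, hv0⟩ : ∃ v0, v0 ∉ U2 := by
      by_contra hn
      push Not at hn
      exact ee_nt b0 ⟨U2, inferInstance, fun v => hn _⟩
    obtain ⟨l0, hl0⟩ := key v0 hv0
    let U4 := U2 ⊔ Submodule.span F {v0}
    have hv4 : v0 ∈ U4 := Submodule.mem_sup_right (Submodule.mem_span_singleton_self v0)
    refine ⟨l0, U4 ⊔ U4.map C, inferInstance, fun v => ?_⟩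
    have e : (C - algebraMap F (EE F W) l0) v = C v - l0 • v := by simp
    rw [e]
    by_cases hv : v ∈ U4
    · exact Submodule.sub_mem _ (Submodule.mem_sup_right (Submodule.mem_map_of_mem hv))
        (Submodule.mem_sup_left (U4.smul_mem _ hv))
    obtain ⟨m, hm⟩ := key v fun k => hv (Submodule.mem_sup_left k)
    obtain ⟨n, hn⟩ := key (v + v0) fun k => hv (by
      simpa using U4.sub_mem (Submodule.mem_sup_left k) hv4)
    have h1 : (n - m) • v + (n - l0) • v0 ∈ U2 := by
      have := U2.sub_mem (U2.add_mem hm hl0) hn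
      convert this using 1
      rw [map_add]; module
    have h2 : n - m = 0 := by
      by_contra k
      refine hv ((U4.smul_mem_iff k).1 ?_)
      simpa using U4.sub_mem (Submodule.mem_sup_left h1) (U4.smul_mem (n - l0) hv4)
    rw [h2, zero_smul, zero_add] at h1
    have h3 : n - l0 = 0 := by
      by_contra k
      exact hv0 ((U2.smul_mem_iff k).1 h1)
    have h4 : l0 = m := by linear_combination h2 - h3
    exact Submodule.mem_sup_left (Submodule.mem_sup_left (h4 ▸ hm))
  · left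
    obtain ⟨t, h1, h2⟩ := ee_inj b0 U hf
    obtain ⟨g, hg⟩ := (LinearMap.coprod t (C * t)).exists_leftInverse_of_injective (by
      rw [LinearMap.ker_eq_bot'] at h1 ⊢
      rintro ⟨a, b⟩ h
      simp only [LinearMap.coprod_apply, Module.End.mul_apply] at h
      have h3 : b = 0 := h1 b (hU.1 _ (h2 b) (by
        rw [eq_neg_of_add_eq_zero_right h]; exact U.neg_mem (h2 a)))
      subst h3
      simp only [map_zero, add_zero] at h
      rw [h1 a h]; rfl)
    refine ⟨LinearMap.fst _ _ _ ∘ₗ g, t, LinearMap.ext fun v => ?_, LinearMap.ext fun v => ?_⟩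
    · simpa using congrArg Prod.fst (LinearMap.congr_fun hg (v, 0))
    · simpa using congrArg Prod.fst (LinearMap.congr_fun hg (0, v))

theorem calkin_good (b0 : Module.Basis ℕ F W) : Good F (EE F W ⧸ finR F W) where
  nt := fun h => ee_nt b0 (Ideal.Quotient.eq_zero_iff_mem.1 h)
  reg := by
    intro y
    obtain ⟨y, rfl⟩ := Ideal.Quotient.mk_surjective y
    obtain ⟨z, hz⟩ := ee_reg y
    exact ⟨Ideal.Quotient.mk _ z, by rw [← map_mul, ← map_mul, hz]⟩
  pi := by
    intro y hy
    obtain ⟨y, rfl⟩ := Ideal.Quotient.mk_surjective y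
    obtain ⟨s, t, h⟩ := ee_pi b0 y fun k => hy (Ideal.Quotient.eq_zero_iff_mem.2 k)
    exact ⟨Ideal.Quotient.mk _ s, Ideal.Quotient.mk _ t, by rw [← map_mul, ← map_mul, h, map_one]⟩
  lea := by
    obtain ⟨a, b, c, d, h1, h2, h3, h4, h5⟩ := ee_lea b0
    refine ⟨Ideal.Quotient.mk _ a, Ideal.Quotient.mk _ b, Ideal.Quotient.mk _ c,
      Ideal.Quotient.mk _ d, ?_, ?_, ?_, ?_, ?_⟩
    all_goals simp only [← map_mul, ← map_add, h1, h2, h3, h4, h5, map_one, map_zero]
  cen := by
    intro c hc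
    obtain ⟨c, rfl⟩ := Ideal.Quotient.mk_surjective c
    rcases ee_cen b0 c with ⟨s, t, h1, h2⟩ | ⟨l, hl⟩
    · refine ⟨0, ?_⟩
      have h3 := congrArg (Ideal.Quotient.mk (finR F W)) h2
      rw [map_mul, map_mul, ← hc, mul_assoc, ← map_mul, h1, map_one, mul_one] at h3
      rw [h3, map_zero, map_zero]
    · exact ⟨l, (Ideal.Quotient.mk_eq_mk_iff_sub_mem _ _).2 hl⟩

theorem exists_good (F : Type) [Field F] : ∃ (B : Type) (_ : Ring B) (_ : Algebra F B), Good F B :=
  ⟨_, _, _, calkin_good (Finsupp.basisSingleOne (R := F) (ι := ℕ))⟩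

end Z54
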