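import Pool.Agent.Lib.MP_1e63be_al.Z54.GMove

/-! The gluing step: every polynomial becomes linear. -/

namespace Z54

open Z87

variable {F R : Type} [Field F] [Ring R] [Algebra F R] {I J : RI R}
variable {P : Type} [Ring P] [Algebra F P] {C : R →ₐ[F] P}

theorem GS.aa (s : GS I J) : s.t * s.ts * (s.t * s.ts) = s.t * s.ts := by
  rw [mul_assoc, ra s.tt, one_mul]

theorem GS.bb (s : GS I J) : s.v * s.vs * (s.v * s.vs) = s.v * s.vs := s.swap.aa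

theorem GS.aJ (s : GS I J) (hJ : MaxR J) : s.t * s.ts ∉ J := fun e => hJ.1 (RI.of_sub s.hJ e)

theorem GS.bI (s : GS I J) (hI : MaxR I) : s.v * s.vs ∉ I := s.swap.aJ hI

theorem GS.a_mem (s : GS I J) {z : R} : s.t * s.ts * z ∈ J ↔ z ∈ J :=
  have h : z - s.t * s.ts * z ∈ J := RI.cast (RI.mul s.hJ z) (by rw [sub_mul, one_mul])
  ⟨fun e => RI.of_sub h e, fun e => RI.of_sub' h e⟩

theorem GS.b_mem (s : GS I J) {z : R} : s.v * s.vs * z ∈ I ↔ z ∈ I := s.swap.a_mem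

theorem GS.xJ (s : GS I J) : s.x ∈ J :=
  RI.cast (RI.mul s.hJ s.x) (by rw [sub_mul, one_mul, mul_assoc, s.tx, mul_zero, sub_zero])

theorem GS.yI (s : GS I J) : s.y ∈ I := s.swap.xJ

theorem colw (σ : GS I J) (hJ : MaxR J) {κ : Type} {s : Finset κ} {W z : κ → R}
    (hz : DualOn s W z) (hzJ : ∀ k ∈ s, z k ∈ J) (az : ∀ k ∈ s, σ.t * σ.ts * z k = z k) :
    ∃ zs w, DualOn s zs z ∧ (∀ k ∈ s, zs k * (σ.t * σ.ts) = zs k) ∧ w ∉ J ∧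
      σ.t * σ.ts * w = w ∧ ∀ k ∈ s, zs k * w = 0 := by
  have d : DualOn s (fun k => W k * (σ.t * σ.ts)) z :=
    hz.congr fun a _ b hb => by rw [mul_assoc, az b hb]
  refine ⟨_, σ.t * σ.ts - ∑ k ∈ s, z k * (W k * (σ.t * σ.ts)), d,
    fun k _ => by rw [mul_assoc, σ.aa], fun e => σ.aJ hJ (RI.of_sub e
      (J.sum_mem fun k hk => RI.mul (hzJ k hk) _)), ?_, fun k hk => ?_⟩
  · rw [mul_sub, σ.aa, Finset.mul_sum,
      Finset.sum_congr rfl fun k hk => by rw [← mul_assoc, az k hk]]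
  · rw [mul_sub, d.mul_sum _ hk, mul_assoc, σ.aa, sub_self]

theorem roww (σ : GS I J) (hJ : MaxR J) {κ : Type} {s : Finset κ} {zs ζ : κ → R}
    (hz : DualOn s zs ζ) (za : ∀ k ∈ s, zs k * (σ.t * σ.ts) = zs k) {w : R} (hw : w ∉ J)
    (aw : σ.t * σ.ts * w = w) (zw : ∀ k ∈ s, zs k * w = 0) :
    ∃ z, DualOn s zs z ∧ (∀ k ∈ s, z k ∈ J) ∧ ∀ k ∈ s, σ.t * σ.ts * z k = z k := by
  obtain ⟨c, hc⟩ := hJ.2 w hw
  refine ⟨fun k => (1 - w * c) * (σ.t * σ.ts * ζ k), hz.congr fun a ha b _ => ?_,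
    fun k _ => RI.mul (RI.symm hc) _, fun k _ => ?_⟩
  · rw [sub_mul, mul_sub, one_mul, ra (za a ha), mul_assoc w, ra (zw a ha), zero_mul, sub_zero]
  · beta_reduce
    rw [sub_mul, mul_sub, one_mul, ra σ.aa, mul_assoc w, ra aw]

variable (G : Good F R) (hI : MaxR I) (hJ : MaxR J) (U : Univ C) (σ : GS I J)
include G hI hJ

theorem moveC {κ : Type} {s : Finset κ} {W z W' y : κ → R}
    (hz : DualOn s W z) (hzJ : ∀ k ∈ s, z k ∈ J) (az : ∀ k ∈ s, σ.t * σ.ts * z k = z k)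
    (hy : DualOn s W' y) (hyI : ∀ k ∈ s, y k ∈ I) (by' : ∀ k ∈ s, σ.v * σ.vs * y k = y k) :
    ∃ φ σ', Mv U σ φ σ' ∧ ∀ k ∈ s, σ'.X U * C (y k) = C (z k) ∧ σ'.Y U * C (z k) = C (y k) := by
  obtain ⟨zs, wa, a1, a2, a3, a4, a5⟩ := colw σ hJ hz hzJ az
  obtain ⟨ys, wb, b1, b2, b3, b4, b5⟩ := colw σ.swap hI hy hyI by'
  obtain ⟨φ, σ', h1, h2, -⟩ := move G hI hJ U σ a1 hzJ az a2 a3 a4 a5 J.zero_mem b1 hyI by' b2 b3
    b4 b5 I.zero_mem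
  exact ⟨φ, σ', h1, fun k hk => ⟨(h2 k hk).1, (h2 k hk).2.2.1⟩⟩

theorem moveR {κ : Type} {s : Finset κ} {zs ζ ys η : κ → R} {wa wb hb : R}
    (hz : DualOn s zs ζ) (za : ∀ k ∈ s, zs k * (σ.t * σ.ts) = zs k) (hwa : wa ∉ J)
    (aw : σ.t * σ.ts * wa = wa) (zw : ∀ k ∈ s, zs k * wa = 0)
    (hy : DualOn s ys η) (yb : ∀ k ∈ s, ys k * (σ.v * σ.vs) = ys k) (hwb : wb ∉ I)
    (bw : σ.v * σ.vs * wb = wb) (yw : ∀ k ∈ s, ys k * wb = 0) (hhb : hb ∈ I) :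
    ∃ φ σ', Mv U σ φ σ' ∧ (∀ k ∈ s, C (zs k) * σ'.X U = C (ys k) ∧ C (ys k) * σ'.Y U = C (zs k)) ∧
      σ'.vs * hb = 0 := by
  obtain ⟨z, a1, a2, a3⟩ := roww σ hJ hz za hwa aw zw
  obtain ⟨y, b1, b2, b3⟩ := roww σ.swap hI hy yb hwb bw yw
  obtain ⟨φ, σ', h1, h2, -, -, -, h3⟩ := move G hI hJ U σ a1 a2 a3 za hwa aw zw J.zero_mem b1 b2 b3
    yb hwb bw yw hhb
  exact ⟨φ, σ', h1, fun k hk => ⟨(h2 k hk).2.1, (h2 k hk).2.2.2⟩, h3⟩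

theorem move0 {wa ha wb hb : R} (hwa : wa ∉ J) (aw : σ.t * σ.ts * wa = wa) (hha : ha ∈ J)
    (hwb : wb ∉ I) (bw : σ.v * σ.vs * wb = wb) (hhb : hb ∈ I) :
    ∃ φ σ', Mv U σ φ σ' ∧ (∃ c, σ'.t = wa * c) ∧ σ'.ts * ha = 0 ∧ (∃ c, σ'.v = wb * c) ∧
      σ'.vs * hb = 0 := by
  have d : DualOn (∅ : Finset Unit) (fun _ => (0 : R)) fun _ => 0 := ⟨by simp, by simp⟩
  obtain ⟨φ, σ', h1, -, h2⟩ := move G hI hJ U σ d (by simp) (by simp) (by simp) hwa aw (by simp)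
    hha d (by simp) (by simp) (by simp) hwb bw (by simp) hhb
  exact ⟨φ, σ', h1, h2⟩

theorem exh {ha hb : R} (hha : ha ∈ J) (hhb : hb ∈ I) :
    ∃ φ σ', Mv U σ φ σ' ∧ σ'.ts * ha = 0 ∧ σ'.vs * hb = 0 := by
  obtain ⟨φ, σ', h1, -, h2, -, h3⟩ := move0 G hI hJ U σ (σ.aJ hJ) σ.aa hha (σ.bI hI) σ.bb hhb
  exact ⟨φ, σ', h1, h2, h3⟩

omit G hI hJ U in
theorem excw {Q : RI R} (hQ : MaxR Q) (hJ : MaxR J) (y : R) :
    (∀ j ∈ J, y * (σ.t * σ.ts) * j ∈ Q) ∨ ∃ w, w ∉ J ∧ σ.t * σ.ts * w = w ∧ y * w ∈ Q := by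
  by_cases h : ∀ j ∈ J, y * (σ.t * σ.ts) * j ∈ Q
  · exact Or.inl h
  push Not at h
  obtain ⟨j, h1, h2⟩ := h
  obtain ⟨c, hc⟩ := hQ.2 _ h2
  refine Or.inr ⟨σ.t * σ.ts * (1 - j * c * y * (σ.t * σ.ts)), fun e => hJ.1 (RI.of_sub
    (σ.a_mem.1 e) (RI.mul (RI.mul (RI.mul h1 _) _) _)), ra σ.aa _,
    RI.cast (RI.mul (RI.symm hc) (y * (σ.t * σ.ts))) (by noncomm_ring)⟩

theorem exc1 (hE : EndF F J) (y : R) :
    ∃ φ σ', Mv U σ φ σ' ∧ ∃ l : F, σ'.ts * y * σ'.t = algebraMap F R l := by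
  obtain ⟨w, l, h1, h2, h3⟩ : ∃ w l, w ∉ J ∧ σ.t * σ.ts * w = w ∧
      (y - algebraMap F R l) * w ∈ J := by
    rcases excw σ hJ hJ y with h | ⟨w, h1, h2, h3⟩
    · obtain ⟨l, hl⟩ := hE _ h
      refine ⟨_, l, σ.aJ hJ, σ.aa, RI.cast (J.add_mem hl (RI.mul σ.hJ (algebraMap F R l))) ?_⟩
      rw [sub_mul, sub_mul, Algebra.commutes, one_mul]; abel
    · exact ⟨w, 0, h1, h2, by simpa using h3⟩
  obtain ⟨φ, σ', a1, ⟨c, a2⟩, a3, -⟩ := move0 G hI hJ U σ h1 h2 h3 (σ.bI hI) σ.bb I.zero_mem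
  refine ⟨φ, σ', a1, l, ?_⟩
  have : σ'.ts * (y - algebraMap F R l) * σ'.t = 0 := by
    rw [a2, ← mul_assoc, mul_assoc _ _ w, a3, zero_mul]
  rwa [mul_sub, sub_mul, ← Algebra.commutes, mul_assoc (algebraMap F R l), σ'.tt, mul_one,
    sub_eq_zero] at this

theorem exc2 (hJI : ∀ c, (∀ j ∈ J, c * j ∈ I) → c ∈ I) (y : R) :
    ∃ φ σ', Mv U σ φ σ' ∧ σ'.vs * y * σ'.t = 0 := by
  obtain ⟨w, h1, h2, h3⟩ : ∃ w, w ∉ J ∧ σ.t * σ.ts * w = w ∧ y * w ∈ I := by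
    rcases excw σ hI hJ y with h | h
    · exact ⟨_, σ.aJ hJ, σ.aa, hJI _ h⟩
    · exact h
  obtain ⟨φ, σ', a1, ⟨c, a2⟩, -, -, a3⟩ := move0 G hI hJ U σ h1 h2 J.zero_mem (σ.bI hI) σ.bb h3
  exact ⟨φ, σ', a1, by rw [a2, ← mul_assoc, mul_assoc _ _ w, a3, zero_mul]⟩

omit G hI hJ

/-- linear forms -/
def Lin (C : R →ₐ[F] P) (X Y : P) : AddSubgroup P :=
  AddSubgroup.closure {z | ∃ c d, ∃ x ∈ ({1, X, Y} : Set P), z = C c * x * C d}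

omit U σ in
theorem Lin.gen {X Y x : P} (hx : x ∈ ({1, X, Y} : Set P)) (c d : R) : C c * x * C d ∈ Lin C X Y :=
  AddSubgroup.subset_closure ⟨c, d, x, hx, rfl⟩

omit U σ in
theorem Lin.const {X Y : P} (c : R) : C c ∈ Lin C X Y := by
  simpa using Lin.gen (C := C) (X := X) (Y := Y) (x := 1) (by simp) c 1

omit U σ in
theorem Lin.swap {X Y p : P} (h : p ∈ Lin C X Y) : p ∈ Lin C Y X := by
  unfold Lin at *
  rwa [Set.pair_comm]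

omit U σ in
theorem Lin.map {X Y p : P} (h : p ∈ Lin C X Y) (φ : P →ₐ[F] P) (hφ : ∀ c, φ (C c) = C c) :
    φ p ∈ Lin C (φ X) (φ Y) := by
  induction h using AddSubgroup.closure_induction with
  | mem x hx =>
    obtain ⟨c, d, x, hx, rfl⟩ := hx
    rw [map_mul, map_mul, hφ, hφ]
    refine Lin.gen ?_ c d
    rcases hx with rfl | rfl | rfl <;> simp
  | zero => rw [map_zero]; exact zero_mem _
  | add x y _ _ hx hy => rw [map_add]; exact add_mem hx hy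
  | neg x _ hx => rw [map_neg]; exact neg_mem hx

variable {U σ} in
theorem Mv.lin {σ' : GS I J} {φ : P →ₐ[F] P} (h : Mv U σ φ σ') {p : P}
    (hp : p ∈ Lin C (σ.X U) (σ.Y U)) : φ p ∈ Lin C (σ'.X U) (σ'.Y U) := by
  rw [← h.2.1, ← h.2.2]; exact Lin.map hp φ h.1

theorem GS.g_eq : σ.g U = σ.X U - C σ.x := by rw [GS.X, add_sub_cancel_left]

theorem GS.g'_eq : σ.g' U = σ.Y U - C σ.y := σ.swap.g_eq U.swap

omit U σ in
theorem lin_mul {X Y x x' : P} (hx : x ∈ ({1, X, Y} : Set P)) (hx' : x' ∈ ({1, X, Y} : Set P))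
    {x0 x1 y e : R} (h : (x - C x0) * C y * (x' - C x1) = C e) (c d : R) :
    C c * (x * C y * x') * C d ∈ Lin C X Y := by
  have : C c * (x * C y * x') * C d = C (c * (e - x0 * y * x1) * d) + C (c * x0 * y) * x' * C d
      + C c * x * C (y * x1 * d) := by
    simp only [map_mul, map_sub, ← h]; noncomm_ring
  rw [this]
  exact add_mem (add_mem (Lin.const _) (Lin.gen hx' _ _)) (Lin.gen hx _ _)

/-- linear after every move and a further move -/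
def SE (p : P) : Prop := ∀ φ σ1, Mv U σ φ σ1 → ∃ ψ σ2, Mv U σ1 ψ σ2 ∧
  ψ (φ p) ∈ Lin C (σ2.X U) (σ2.Y U)

variable {U σ}

theorem SE.of_lin {p : P} (h : p ∈ Lin C (σ.X U) (σ.Y U)) : SE U σ p :=
  fun _ σ1 h1 => ⟨_, σ1, Mv.refl U σ1, h1.lin h⟩

theorem SE.two {p q : P} (hp : SE U σ p) (hq : SE U σ q) {φ σ1} (h : Mv U σ φ σ1) :
    ∃ ψ σ2, Mv U σ1 ψ σ2 ∧ ψ (φ p) ∈ Lin C (σ2.X U) (σ2.Y U) ∧
      ψ (φ q) ∈ Lin C (σ2.X U) (σ2.Y U) := by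
  obtain ⟨ψ, σ2, a1, a2⟩ := hp φ σ1 h
  obtain ⟨χ, σ3, b1, b2⟩ := hq _ σ2 (h.comp a1)
  exact ⟨_, σ3, a1.comp b1, b1.lin a2, b2⟩

theorem SE.add {p q : P} (hp : SE U σ p) (hq : SE U σ q) : SE U σ (p + q) := fun φ σ1 h => by
  obtain ⟨ψ, σ2, a1, a2, a3⟩ := hp.two hq h
  exact ⟨ψ, σ2, a1, by rw [map_add, map_add]; exact add_mem a2 a3⟩

theorem SE.neg {p : P} (hp : SE U σ p) : SE U σ (-p) := fun φ σ1 h => by
  obtain ⟨ψ, σ2, a1, a2⟩ := hp φ σ1 h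
  exact ⟨ψ, σ2, a1, by rw [map_neg, map_neg]; exact neg_mem a2⟩

theorem SE.swap {p : P} (hp : SE U.swap σ.swap p) : SE U σ p := fun φ σ1 h => by
  obtain ⟨ψ, σ2, a1, a2⟩ := hp φ σ1.swap h.swap
  exact ⟨ψ, σ2.swap, a1.swap, Lin.swap a2⟩

include G hI hJ

theorem se1 (hE : EndF F J) (c y d : R) : SE U σ (C c * (σ.Y U * C y * σ.X U) * C d) := by
  intro φ σ1 h
  obtain ⟨ψ, σ2, a1, l, a2⟩ := exc1 G hI hJ U σ1 hE y
  refine ⟨ψ, σ2, a1, ?_⟩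
  simp only [map_mul, h.1, h.2.1, h.2.2, a1.1, a1.2.1, a1.2.2]
  refine lin_mul (by simp) (by simp) (x0 := σ2.y) (x1 := σ2.x) (e := l • (σ2.v * σ2.vs)) ?_ c d
  rw [← GS.g_eq, ← GS.g'_eq]
  have : σ2.g' U * C y * σ2.g U = C σ2.v * U.H * C (σ2.ts * y * σ2.t) * (U.G * C σ2.vs) := by
    simp only [GS.g, GS.g', map_mul, mul_assoc]
  rw [this, a2, AlgHom.commutes, ← Algebra.commutes, mul_assoc, ← Algebra.smul_def, mul_assoc,
    ra U.HG, one_mul, map_smul, map_mul]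

theorem se2 (hJI : ∀ c, (∀ j ∈ J, c * j ∈ I) → c ∈ I) (c y d : R) :
    SE U σ (C c * (σ.X U * C y * σ.X U) * C d) := by
  intro φ σ1 h
  obtain ⟨ψ, σ2, a1, a2⟩ := exc2 G hI hJ U σ1 hJI y
  refine ⟨ψ, σ2, a1, ?_⟩
  simp only [map_mul, h.1, h.2.1, h.2.2, a1.1, a1.2.1, a1.2.2]
  refine lin_mul (by simp) (by simp) (x0 := σ2.x) (x1 := σ2.x) (e := 0) ?_ c d
  rw [← GS.g_eq]
  have : σ2.g U * C y * σ2.g U = C σ2.t * U.G * C (σ2.vs * y * σ2.t) * (U.G * C σ2.vs) := by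
    simp only [GS.g, map_mul, mul_assoc]
  rw [this, a2, map_zero, mul_zero, zero_mul]

variable (hEI : EndF F I) (hEJ : EndF F J) (hJI : ∀ c, (∀ j ∈ J, c * j ∈ I) → c ∈ I)
  (hIJ : ∀ c, (∀ i ∈ I, c * i ∈ J) → c ∈ J)
include hEI hEJ hJI hIJ

theorem se_lin {p q : P} (hp : p ∈ Lin C (σ.X U) (σ.Y U)) (hq : q ∈ Lin C (σ.X U) (σ.Y U)) :
    SE U σ (p * q) := by
  induction hp using AddSubgroup.closure_induction with
  | zero => rw [zero_mul]; exact SE.of_lin (zero_mem _)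
  | add x y _ _ hx hy => rw [add_mul]; exact hx.add hy
  | neg x _ hx => rw [neg_mul]; exact hx.neg
  | mem p hp =>
    induction hq using AddSubgroup.closure_induction with
    | zero => rw [mul_zero]; exact SE.of_lin (zero_mem _)
    | add x y _ _ hx hy => rw [mul_add]; exact hx.add hy
    | neg x _ hx => rw [mul_neg]; exact hx.neg
    | mem q hq =>
      obtain ⟨c, d, x, hx, rfl⟩ := hp
      obtain ⟨c', d', x', hx', rfl⟩ := hq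
      have e : C c * x * C d * (C c' * x' * C d') = C c * (x * C (d * c') * x') * C d' := by
        simp only [map_mul, mul_assoc]
      rw [e]
      by_cases h1 : x = 1
      · exact SE.of_lin (lin_mul hx hx' (x0 := 1) (x1 := 0) (e := 0) (by simp [h1]) _ _)
      by_cases h2 : x' = 1
      · exact SE.of_lin (lin_mul hx hx' (x0 := 0) (x1 := 1) (e := 0) (by simp [h2]) _ _)
      rcases hx.resolve_left h1 with rfl | rfl <;> rcases hx'.resolve_left h2 with rfl | rfl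
      · exact se2 G hI hJ hJI _ _ _
      · exact SE.swap (se1 (σ := σ.swap) (U := U.swap) G hJ hI hEI _ _ _)
      · exact se1 G hI hJ hEJ _ _ _
      · exact SE.swap (se2 (σ := σ.swap) (U := U.swap) G hJ hI hIJ _ _ _)

omit G hI hJ hEI hEJ hJI hIJ in
theorem GS.G_eq (σ : GS I J) (U : Univ C) : U.G = C σ.ts * σ.g U * C σ.v := by
  simp only [GS.g, mul_assoc, cm σ.tt, cm' σ.vv, map_one, one_mul, mul_one]

theorem lin (σ : GS I J) (p : P) : ∃ φ σ', Mv U σ φ σ' ∧ φ p ∈ Lin C (σ'.X U) (σ'.Y U) := by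
  suffices h : SE U σ p from h _ σ (Mv.refl U σ)
  have k : ∀ {I J : RI R} (σ : GS I J) (U : Univ C), U.G ∈ Lin C (σ.X U) (σ.Y U) := by
    intro I J σ U
    rw [σ.G_eq U, σ.g_eq, mul_sub, sub_mul, ← map_mul, ← map_mul]
    exact sub_mem (Lin.gen (by simp) _ _) (Lin.const _)
  induction U.gen p using Subring.closure_induction with
  | mem x hx =>
    rcases hx with ⟨c, rfl⟩ | rfl | rfl
    · exact SE.of_lin (Lin.const c)
    · exact SE.of_lin (k σ U)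
    · exact SE.of_lin (Lin.swap (k σ.swap U.swap))
  | zero => exact SE.of_lin (zero_mem _)
  | one => exact SE.of_lin (map_one C ▸ Lin.const 1)
  | add x y _ _ hx hy => exact hx.add hy
  | neg x _ hx => exact hx.neg
  | mul x y _ _ hx hy =>
    intro φ σ1 h
    obtain ⟨ψ, σ2, a1, a2, a3⟩ := hx.two hy h
    obtain ⟨χ, σ3, b1, b2⟩ := se_lin G hI hJ hEI hEJ hJI hIJ a2 a3 _ σ2 (Mv.refl U σ2)
    exact ⟨_, σ3, a1.comp b1, by rw [map_mul, map_mul]; exact (map_mul χ _ _) ▸ b2⟩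

end Z54
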