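import Pool.Agent.Lib.MP_1e63be_al.Z87.Game

/-! The gluing step: states and moves. -/

namespace Z54

open Z87

variable {F R : Type} [Field F] [Ring R] [Algebra F R]

theorem ch0 {J : RI R} (hJ : MaxR J) {t w h : R} (ht : t ∉ J) (hw : w * t = 1) (hh : h ∈ J)
    (h2 : h * h = h) (h3 : w * h = 0) : ∃ ts, ts * t = 1 ∧ ts * h = 0 ∧ 1 - t * ts ∈ J := by
  obtain ⟨r, hr⟩ := hJ.2 t ht
  refine ⟨w + r * (1 - h) * (1 - t * w), ?_, ?_, ?_⟩
  · rw [add_mul, hw, mul_assoc, sub_mul 1 _ t, mul_assoc t, hw]; simp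
  · rw [add_mul, h3, mul_assoc, sub_mul 1 _ h, mul_assoc t, h3, mul_zero, sub_zero, one_mul,
      mul_assoc, sub_mul, h2]; simp
  · exact RI.cast (RI.mul (J.sub_mem hh (RI.mul hr (1 - h))) (1 - t * w)) (by noncomm_ring)

theorem ch (G : Good F R) {J : RI R} (hJ : MaxR J) {w : R} (hw : w ∉ J) {κ : Type} (s : Finset κ)
    (h : κ → R) (hh : ∀ i ∈ s, h i ∈ J) :
    ∃ c ts, ts * (w * c) = 1 ∧ (∀ i ∈ s, ts * h i = 0) ∧ 1 - w * c * ts ∈ J := by
  obtain ⟨k, k1, k2, k3⟩ := join G.reg s h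
  have hk := k3 J hh
  obtain ⟨d, d', h1, h2⟩ := G.li (V := J) (v := 1) (c := (1 - k) * w) fun e =>
    hw (RI.cast (J.add_mem e (RI.mul hk w)) (by noncomm_ring))
  obtain ⟨ts, a1, a2, a3⟩ := ch0 hJ (t := w * d) (w := d' * (1 - k)) (h := k)
    (fun e => h2 (RI.cast (J.sub_mem e (RI.mul hk (w * d))) (by noncomm_ring)))
    (by simpa only [mul_assoc] using h1) hk k1 (by rw [mul_assoc, sub_mul, k1]; simp)
  exact ⟨d, ts, a1, fun i hi => by rw [← k2 i hi, ← mul_assoc, a2, zero_mul], a3⟩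

theorem canc1 (G : Good F R) {t ts z zs : R} (ht : ts * t = 1) (hz : zs * z = 1)
    (h1 : t * ts * z = z) (h2 : zs * (t * ts) = zs) (h0 : t * ts - z * zs ≠ 0) :
    ∃ p ps, ps * p = 1 ∧ p * ps = t * ts - z * zs := by
  obtain ⟨i0, i1, j0, j1, a1, a2, a3, a4, a5⟩ := G.lea
  obtain ⟨e, he⟩ : ∃ e, e = t * ts - z * zs := ⟨_, rfl⟩
  rw [← he] at h0 ⊢
  obtain ⟨u, u', hu⟩ := G.pi e h0
  have e1 : zs * e = 0 := by rw [he, mul_sub, h2, ← mul_assoc, hz]; simp
  have e2 : e * z = 0 := by rw [he, sub_mul, h1, mul_assoc, hz]; simp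
  have e3 : t * (ts * e) = e := by
    rw [← mul_assoc, he, mul_sub, ← mul_assoc _ z, h1, mul_assoc, ← mul_assoc ts, ht, one_mul]
  have e4 : e * e = e := by
    conv_lhs => enter [1]; rw [he]
    rw [sub_mul, mul_assoc, e3, mul_assoc, e1]; simp
  have e5 : e * (t * ts) = e := by
    rw [he, sub_mul, mul_assoc z, h2, mul_assoc, ← mul_assoc ts, ht, one_mul]
  obtain ⟨q, hq⟩ : ∃ q, q = e * u' := ⟨_, rfl⟩
  obtain ⟨qs, hqs⟩ : ∃ q, q = u * e := ⟨_, rfl⟩
  have q1 : qs * q = 1 := by rw [hq, hqs, mul_assoc, ← mul_assoc e, e4, ← mul_assoc, hu]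
  have q2 : e * q = q := by rw [hq, ← mul_assoc, e4]
  have q3 : qs * e = qs := by rw [hqs, mul_assoc, e4]
  have q4 : zs * q = 0 := by rw [hq, ← mul_assoc, e1, zero_mul]
  have q5 : qs * z = 0 := by rw [hqs, mul_assoc, e2, mul_zero]
  have q6 : t * (ts * q) = q := by rw [hq, ← mul_assoc ts, ← mul_assoc, e3]
  have q7 : t * (ts * z) = z := by rw [← mul_assoc, h1]
  have k1 : (z * j1 * qs + q * j0 * qs + (e - q * qs)) * (q * i1 * zs + q * i0 * qs + (e - q * qs))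
      = t * ts := by
    have : t * ts = e + z * zs := by rw [he]; abel
    rw [this]
    simp only [mul_add, add_mul, mul_sub, sub_mul, mul_assoc, ra q1, ra q2, ra a1, ra a2, ra a3,
      ra a4, q3, e4, one_mul, zero_mul, mul_zero]
    abel
  have k2 : (q * i1 * zs + q * i0 * qs + (e - q * qs)) * (z * j1 * qs + q * j0 * qs + (e - q * qs))
      = e := by
    have : q * qs = q * (i0 * (j0 * qs)) + q * (i1 * (j1 * qs)) := by
      rw [← mul_add, ← mul_assoc i0, ← mul_assoc i1, ← add_mul, a5, one_mul]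
    simp only [mul_add, add_mul, mul_sub, sub_mul, mul_assoc, ra q1, ra q2, ra hz, ra q4, ra q5,
      ra e2, e1, q3, e4, one_mul, zero_mul, mul_zero]
    rw [this]
    abel
  have k3 : t * (ts * (z * j1 * qs + q * j0 * qs + (e - q * qs)))
      = z * j1 * qs + q * j0 * qs + (e - q * qs) := by
    simp only [mul_add, mul_sub, ← mul_assoc ts, ← mul_assoc t, e3]
    simp only [mul_assoc t, q6, q7, e3]
  refine ⟨(q * i1 * zs + q * i0 * qs + (e - q * qs)) * t,
    ts * (z * j1 * qs + q * j0 * qs + (e - q * qs)), ?_, ?_⟩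
  · rw [mul_assoc, ← mul_assoc _ _ t, k1, mul_assoc, ht, mul_one, ht]
  · rw [mul_assoc, k3, k2]

theorem canc (G : Good F R) {κ : Type} (s : Finset κ) {z zs : κ → R} (hz : DualOn s zs z)
    {t ts : R} (ht : ts * t = 1) (h1 : ∀ k ∈ s, t * ts * z k = z k)
    (h2 : ∀ k ∈ s, zs k * (t * ts) = zs k) {ζ : R} (h3 : ζ ≠ 0) (h4 : t * ts * ζ = ζ)
    (h5 : ∀ k ∈ s, zs k * ζ = 0) :
    ∃ p ps, ps * p = 1 ∧ p * ps = t * ts - ∑ k ∈ s, z k * zs k := by
  classical
  induction s using Finset.induction_on with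
  | empty => exact ⟨t, ts, ht, by simp⟩
  | insert a s ha ih =>
    have m := Finset.mem_insert_self a s
    have m' := @Finset.mem_insert_of_mem _ _ s
    obtain ⟨p, ps, a1, a2⟩ := ih (hz.mono (Finset.subset_insert _ _)) (fun k hk => h1 k (m' hk))
      (fun k hk => h2 k (m' hk)) fun k hk => h5 k (m' hk)
    have ne : ∀ k ∈ s, k ≠ a := fun k hk e => ha (e ▸ hk)
    obtain ⟨p', ps', b1, b2⟩ := canc1 G a1 (hz.1 a m)
      (by
        rw [a2, sub_mul, h1 a m, Finset.sum_mul, Finset.sum_eq_zero, sub_zero]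
        intro k hk
        rw [mul_assoc, hz.2 k (m' hk) a m (ne k hk), mul_zero])
      (by
        rw [a2, mul_sub, h2 a m, Finset.mul_sum, Finset.sum_eq_zero, sub_zero]
        intro k hk
        rw [← mul_assoc, hz.2 a m k (m' hk) (ne k hk).symm, zero_mul])
      (by
        intro e
        have := congrArg (· * ζ) e
        simp only [a2, sub_mul, h4, mul_assoc, h5 a m, Finset.sum_mul, zero_mul, mul_zero] at this
        rw [Finset.sum_eq_zero fun k hk => by rw [h5 k (m' hk), mul_zero]] at this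
        exact h3 (by simpa using this))
    exact ⟨p', ps', b1, by rw [b2, a2, Finset.sum_insert ha]; abel⟩

/-- the decomposition of one side in a move -/
structure Side {κ : Type} (s : Finset κ) (z zs : κ → R) (a t ts p ps : R) : Prop where
  d : DualOn s zs z
  az : ∀ k ∈ s, a * z k = z k
  za : ∀ k ∈ s, zs k * a = zs k
  tt : ts * t = 1
  pp : ps * p = 1
  at' : a * t = t
  ta : ts * a = ts
  ap : a * p = p
  pa : ps * a = ps
  tz : ∀ k ∈ s, ts * z k = 0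
  zt : ∀ k ∈ s, zs k * t = 0
  pz : ∀ k ∈ s, ps * z k = 0
  zp : ∀ k ∈ s, zs k * p = 0
  tp : ts * p = 0
  pt : ps * t = 0
  sum : ∑ k ∈ s, z k * zs k + p * ps = a - t * ts

theorem side (G : Good F R) {J : RI R} (hJ : MaxR J) {t0 ts0 : R} (h0 : ts0 * t0 = 1)
    (ha : 1 - t0 * ts0 ∈ J) {κ : Type} {s : Finset κ} {z zs : κ → R} (hz : DualOn s zs z)
    (hzJ : ∀ k ∈ s, z k ∈ J) (az : ∀ k ∈ s, t0 * ts0 * z k = z k)
    (za : ∀ k ∈ s, zs k * (t0 * ts0) = zs k) {w h : R} (hw : w ∉ J) (aw : t0 * ts0 * w = w)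
    (zw : ∀ k ∈ s, zs k * w = 0) (hh : h ∈ J) :
    ∃ c ts p ps, Side s z zs (t0 * ts0) (w * c) ts p ps ∧ 1 - w * c * ts ∈ J ∧ ts * h = 0 := by
  classical
  obtain ⟨e, e1, e2⟩ := Unif.essn G hJ.unif w fun e => hw (e ▸ J.zero_mem)
  obtain ⟨k0, -, k2, k3⟩ := join G.reg s z
  obtain ⟨c, ts, a1, a2, a3⟩ := ch G hJ hw Finset.univ ![h, w * e, 1 - t0 * ts0, k0] (by
    intro i _
    fin_cases i
    exacts [hh, e2, ha, k3 J hzJ])
  have b0 : ts * h = 0 := a2 0 (Finset.mem_univ _)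
  have b1 : ts * (w * e) = 0 := a2 1 (Finset.mem_univ _)
  have b2 : ts * (1 - t0 * ts0) = 0 := a2 2 (Finset.mem_univ _)
  have b3 : ts * k0 = 0 := a2 3 (Finset.mem_univ _)
  rw [mul_sub, mul_one, sub_eq_zero] at b2
  have tz : ∀ k ∈ s, ts * z k = 0 := fun k hk => by rw [← k2 k hk, ← mul_assoc, b3, zero_mul]
  have zt : ∀ k ∈ s, zs k * (w * c) = 0 := fun k hk => by rw [← mul_assoc, zw k hk, zero_mul]
  have at' : t0 * ts0 * (w * c) = w * c := by rw [← mul_assoc, aw]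
  obtain ⟨p, ps, c1, c2⟩ := canc G s.insertNone (z := fun k => k.elim (w * c) z)
    (zs := fun k => k.elim ts zs)
    ⟨by simpa [Finset.mem_insertNone, Option.forall, a1] using hz.1, by
      rintro (_ | k) hk (_ | l) hl hkl
      · exact (hkl rfl).elim
      · exact tz l (by simpa using hl)
      · exact zt k (by simpa using hk)
      · exact hz.2 k (by simpa using hk) l (by simpa using hl) fun e => hkl (e ▸ rfl)⟩ h0
    (by simpa [Finset.mem_insertNone, Option.forall, at'] using az)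
    (by simpa [Finset.mem_insertNone, Option.forall, ← b2] using za) e1
    (by rw [← mul_assoc, aw])
    (by
      rintro (_ | k) hk
      · exact b1
      · change zs k * (w * e) = 0
        rw [← mul_assoc, zw k (by simpa using hk), zero_mul])
  rw [Finset.sum_insertNone] at c2
  simp only [Option.elim] at c2
  have aa : t0 * ts0 * (t0 * ts0) = t0 * ts0 := by rw [mul_assoc, ← mul_assoc ts0, h0, one_mul]
  have L : ∀ x, x * (p * ps) = 0 → x * p = 0 := fun x e => by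
    rw [← mul_one (x * p), ← c1, mul_assoc, ← mul_assoc p, ← mul_assoc, e, zero_mul]
  have L' : ∀ x, p * ps * x = 0 → ps * x = 0 := fun x e => by
    rw [← one_mul (ps * x), ← c1, mul_assoc, ← mul_assoc p, e, mul_zero]
  refine ⟨c, ts, p, ps, ⟨hz, az, za, a1, c1, at', b2.symm, ?_, ?_, tz, zt, fun k hk => L' _ ?_,
    fun k hk => L _ ?_, L _ ?_, L' _ ?_, by rw [c2]; abel⟩, a3, b0⟩
  · have := L (t0 * ts0 - 1) (by
      rw [sub_mul, c2, mul_sub, mul_add, aa, ← mul_assoc _ (w * c), at', Finset.mul_sum,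
        Finset.sum_congr rfl fun k hk => by rw [← mul_assoc, az k hk]]
      simp)
    rwa [sub_mul, one_mul, sub_eq_zero] at this
  · have := L' (t0 * ts0 - 1) (by
      rw [mul_sub, c2, sub_mul, add_mul, aa, mul_assoc _ ts, ← b2, Finset.sum_mul,
        Finset.sum_congr rfl fun k hk => by rw [mul_assoc, za k hk]]
      simp)
    rwa [mul_sub, mul_one, sub_eq_zero] at this
  · rw [c2, sub_mul, add_mul, az k hk, hz.sum_mul z hk, mul_assoc, tz k hk]; simp
  · rw [c2, mul_sub, mul_add, za k hk, hz.mul_sum zs hk, ← mul_assoc, zt k hk]; simp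
  · rw [c2, mul_sub, mul_add, ← b2, ← mul_assoc, a1, Finset.mul_sum,
      Finset.sum_eq_zero fun k hk => by rw [← mul_assoc, tz k hk, zero_mul]]
    simp
  · rw [c2, sub_mul, add_mul, at', mul_assoc, mul_assoc, a1, Finset.sum_mul,
      Finset.sum_eq_zero fun k hk => by rw [mul_assoc, zt k hk, mul_zero]]
    simp

section delta
variable {κ : Type} {s : Finset κ} {z zs y ys : κ → R} {a t ts p ps b v vs r rs : R}

/-- the constant part of a move -/
def dl (s : Finset κ) (z ys : κ → R) (p rs : R) : R := ∑ k ∈ s, z k * ys k + p * rs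

theorem Side.dl_l (A : Side s z zs a t ts p ps) :
    a * dl s z ys p rs = dl s z ys p rs ∧ ts * dl s z ys p rs = 0 ∧
      ∀ k ∈ s, zs k * dl s z ys p rs = ys k := by
  unfold dl
  refine ⟨?_, ?_, fun k hk => ?_⟩
  · rw [mul_add, ← mul_assoc, A.ap, Finset.mul_sum,
      Finset.sum_congr rfl fun k hk => by rw [← mul_assoc, A.az k hk]]
  · rw [mul_add, ← mul_assoc, A.tp, Finset.mul_sum,
      Finset.sum_eq_zero fun k hk => by rw [← mul_assoc, A.tz k hk, zero_mul]]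
    simp
  · rw [mul_add, A.d.mul_sum ys hk, ← mul_assoc, A.zp k hk]; simp

theorem Side.dl_r (B : Side s y ys b v vs r rs) :
    dl s z ys p rs * b = dl s z ys p rs ∧ dl s z ys p rs * v = 0 ∧
      (∀ k ∈ s, dl s z ys p rs * y k = z k) ∧ dl s z ys p rs * r = p := by
  unfold dl
  refine ⟨?_, ?_, fun k hk => ?_, ?_⟩
  · rw [add_mul, mul_assoc, B.pa, Finset.sum_mul,
      Finset.sum_congr rfl fun k hk => by rw [mul_assoc, B.za k hk]]
  · rw [add_mul, mul_assoc, B.pt, Finset.sum_mul,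
      Finset.sum_eq_zero fun k hk => by rw [mul_assoc, B.zt k hk, mul_zero]]
    simp
  · rw [add_mul, B.d.sum_mul z hk, mul_assoc, B.pz k hk]; simp
  · rw [add_mul, mul_assoc, B.pp, Finset.sum_mul,
      Finset.sum_eq_zero fun k hk => by rw [mul_assoc, B.zp k hk, mul_zero]]
    simp

theorem Side.dl_dl (A : Side s z zs a t ts p ps) (B : Side s y ys b v vs r rs) :
    dl s z ys p rs * dl s y zs r ps = a - t * ts := by
  obtain ⟨-, -, h1, h2⟩ := B.dl_r (z := z) (p := p)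
  rw [← A.sum]
  conv_lhs => enter [2]; unfold dl
  rw [mul_add, ← mul_assoc, h2, Finset.mul_sum,
    Finset.sum_congr rfl fun k hk => by rw [← mul_assoc, h1 k hk]]

end delta

/-- states -/
structure GS (I J : RI R) where
  t : R
  ts : R
  v : R
  vs : R
  x : R
  y : R
  tt : ts * t = 1
  vv : vs * v = 1
  hJ : 1 - t * ts ∈ J
  hI : 1 - v * vs ∈ I
  xy : x * y = 1 - t * ts
  yx : y * x = 1 - v * vs
  tx : ts * x = 0
  xv : x * v = 0
  vy : vs * y = 0
  yt : y * t = 0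

variable {I J : RI R}

def GS.swap (s : GS I J) : GS J I :=
  ⟨s.v, s.vs, s.t, s.ts, s.y, s.x, s.vv, s.tt, s.hI, s.hJ, s.yx, s.xy, s.vy, s.yt, s.tx, s.xv⟩

variable {P : Type} [Ring P] [Algebra F P]

/-- a universal unit -/
structure Univ (C : R →ₐ[F] P) where
  G : P
  H : P
  GH : G * H = 1
  HG : H * G = 1
  gen : ∀ p, p ∈ Subring.closure (Set.range C ∪ {G, H})
  sub : ∀ u u', u * u' = 1 → u' * u = 1 →
    ∃ φ : P →ₐ[F] P, (∀ c, φ (C c) = C c) ∧ φ G = u ∧ φ H = u'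

variable {C : R →ₐ[F] P}

def Univ.swap (U : Univ C) : Univ C :=
  ⟨U.H, U.G, U.HG, U.GH, fun p => Set.pair_comm U.G U.H ▸ U.gen p, fun u u' h1 h2 => by
    obtain ⟨φ, a, b, c⟩ := U.sub u' u h2 h1
    exact ⟨φ, a, c, b⟩⟩

def GS.g (s : GS I J) (U : Univ C) : P := C s.t * U.G * C s.vs
def GS.g' (s : GS I J) (U : Univ C) : P := C s.v * U.H * C s.ts
def GS.X (s : GS I J) (U : Univ C) : P := C s.x + s.g U
def GS.Y (s : GS I J) (U : Univ C) : P := C s.y + s.g' U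

theorem cz {a b : R} (h : a * b = 0) (z : P) : C a * (C b * z) = 0 := by
  rw [← mul_assoc, ← map_mul, h, map_zero, zero_mul]

theorem cm {a b c : R} (h : a * b = c) (z : P) : C a * (C b * z) = C c * z := by
  rw [← mul_assoc, ← map_mul, h]

theorem cm' {a b c : R} (h : a * b = c) : C a * C b = C c := by rw [← map_mul, h]

theorem GS.gg (s : GS I J) (U : Univ C) : s.g U * s.g' U = C (s.t * s.ts) := by
  simp only [GS.g, GS.g', mul_assoc, cm s.vv, map_one, one_mul, ra U.GH, map_mul]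

theorem GS.XY (s : GS I J) (U : Univ C) : s.X U * s.Y U = 1 := by
  unfold GS.X GS.Y
  rw [mul_add, add_mul, add_mul, s.gg, ← map_mul, s.xy]
  simp only [GS.g, GS.g', mul_assoc, cz s.xv, cm' s.vy, map_zero, mul_zero, map_sub, map_one]
  abel

theorem GS.YX (s : GS I J) (U : Univ C) : s.Y U * s.X U = 1 := s.swap.XY U.swap

/-- multiplication of `X` by constants -/
theorem GS.Xr (s : GS I J) (U : Univ C) {d : R} (h : s.vs * d = 0) :
    s.X U * C d = C (s.x * d) := by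
  simp only [GS.X, GS.g, add_mul, mul_assoc, cm' h, map_zero, mul_zero, add_zero, map_mul]

theorem GS.Xl (s : GS I J) (U : Univ C) {d : R} (h : d * s.t = 0) :
    C d * s.X U = C (d * s.x) := by
  simp only [GS.X, GS.g, mul_add, mul_assoc, cz h, add_zero, map_mul]

def Mv (U : Univ C) (s : GS I J) (φ : P →ₐ[F] P) (s' : GS I J) : Prop :=
  (∀ c, φ (C c) = C c) ∧ φ (s.X U) = s'.X U ∧ φ (s.Y U) = s'.Y U

theorem Mv.swap {U : Univ C} {s s' : GS I J} {φ : P →ₐ[F] P} (h : Mv U s φ s') :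
    Mv U.swap s.swap φ s'.swap := ⟨h.1, h.2.2, h.2.1⟩

theorem Mv.refl (U : Univ C) (s : GS I J) : Mv U s (AlgHom.id F P) s := ⟨fun _ => rfl, rfl, rfl⟩

theorem Mv.comp {U : Univ C} {s s' s'' : GS I J} {φ ψ : P →ₐ[F] P} (h : Mv U s φ s')
    (h' : Mv U s' ψ s'') : Mv U s (ψ.comp φ) s'' :=
  ⟨fun c => by rw [AlgHom.comp_apply, h.1, h'.1], by rw [AlgHom.comp_apply, h.2.1, h'.2.1],
    by rw [AlgHom.comp_apply, h.2.2, h'.2.2]⟩

/-- `s'` is smaller than `s` -/
structure GS.Le (s' s : GS I J) : Prop where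
  h1 : s'.vs * (1 - s.v * s.vs) = 0
  h2 : s'.x * (1 - s.v * s.vs) = s.x
  h3 : (1 - s.t * s.ts) * s'.t = 0
  h4 : (1 - s.t * s.ts) * s'.x = s.x

theorem GS.Le.uu {s s' : GS I J} (h : s'.Le s) (U : Univ C) :
    C s.ts * s'.X U * C s.v * (C s.vs * s'.Y U * C s.t) = 1 := by
  have a := s'.Xr U h.h1
  rw [h.h2, map_sub, mul_sub, map_one, mul_one, sub_eq_iff_eq_add', ← sub_eq_iff_eq_add,
    map_mul] at a
  have : C s.ts * s'.X U * C s.v * (C s.vs * s'.Y U * C s.t)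
    = C s.ts * (s'.X U * (C s.v * C s.vs)) * (s'.Y U * C s.t) := by simp only [mul_assoc]
  rw [this, ← a, mul_sub, cm' s.tx, map_zero, sub_zero, mul_assoc, ra (s'.XY U), one_mul,
    cm' s.tt, map_one]

theorem GS.Le.X {s s' : GS I J} (h : s'.Le s) (U : Univ C) :
    C s.x + C s.t * (C s.ts * s'.X U * C s.v) * C s.vs = s'.X U := by
  have a := s'.Xr U h.h1
  rw [h.h2, map_sub, mul_sub, map_one, mul_one, sub_eq_iff_eq_add', ← sub_eq_iff_eq_add,
    map_mul] at a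
  have b := s'.Xl U h.h3
  rw [h.h4, map_sub, sub_mul, map_one, one_mul, map_mul] at b
  have : C s.t * (C s.ts * s'.X U * C s.v) * C s.vs
    = C s.t * (C s.ts * (s'.X U * (C s.v * C s.vs))) := by simp only [mul_assoc]
  rw [this, ← a, mul_sub, cm' s.tx, map_zero, sub_zero, ← b, mul_assoc, sub_add_cancel]

theorem subst (U : Univ C) {s s' : GS I J} (h : s'.Le s) (h' : s'.swap.Le s.swap) :
    ∃ φ, Mv U s φ s' := by
  obtain ⟨φ, h1, h2, h3⟩ := U.sub _ _ (h.uu U) (h'.uu U.swap)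
  refine ⟨φ, h1, ?_, ?_⟩
  · rw [← h.X U]
    simp only [GS.X, GS.g, map_add, map_mul, h1, h2]
  · refine Eq.trans ?_ (h'.X U.swap)
    simp only [GS.Y, GS.g', map_add, map_mul, h1, h3]
    rfl

theorem move (G : Good F R) (hI : MaxR I) (hJ : MaxR J) (U : Univ C) (σ : GS I J) {κ : Type}
    {s : Finset κ} {z zs y ys : κ → R} {wa ha wb hb : R}
    (hz : DualOn s zs z) (hzJ : ∀ k ∈ s, z k ∈ J) (az : ∀ k ∈ s, σ.t * σ.ts * z k = z k)
    (za : ∀ k ∈ s, zs k * (σ.t * σ.ts) = zs k) (hwa : wa ∉ J) (aw : σ.t * σ.ts * wa = wa)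
    (zw : ∀ k ∈ s, zs k * wa = 0) (hha : ha ∈ J)
    (hy : DualOn s ys y) (hyI : ∀ k ∈ s, y k ∈ I) (by' : ∀ k ∈ s, σ.v * σ.vs * y k = y k)
    (yb : ∀ k ∈ s, ys k * (σ.v * σ.vs) = ys k) (hwb : wb ∉ I) (bw : σ.v * σ.vs * wb = wb)
    (yw : ∀ k ∈ s, ys k * wb = 0) (hhb : hb ∈ I) :
    ∃ φ σ', Mv U σ φ σ' ∧ (∀ k ∈ s, σ'.X U * C (y k) = C (z k) ∧ C (zs k) * σ'.X U = C (ys k) ∧
      σ'.Y U * C (z k) = C (y k) ∧ C (ys k) * σ'.Y U = C (zs k)) ∧
      (∃ c, σ'.t = wa * c) ∧ σ'.ts * ha = 0 ∧ (∃ c, σ'.v = wb * c) ∧ σ'.vs * hb = 0 := by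
  obtain ⟨c, ts, p, ps, A, a1, a2⟩ := side G hJ σ.tt σ.hJ hz hzJ az za hwa aw zw hha
  obtain ⟨d, vs, r, rs, B, b1, b2⟩ := side G hI σ.vv σ.hI hy hyI by' yb hwb bw yw hhb
  obtain ⟨l1, l2, l3⟩ := A.dl_l (ys := ys) (rs := rs)
  obtain ⟨l4, l5, l6, -⟩ := B.dl_r (z := z) (p := p)
  obtain ⟨m1, m2, m3⟩ := B.dl_l (ys := zs) (rs := ps)
  obtain ⟨m4, m5, m6, -⟩ := A.dl_r (z := y) (p := r)
  have l7 := A.dl_dl B
  have m7 := B.dl_dl A
  generalize dl s z ys p rs = δ at *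
  generalize dl s y zs r ps = ε at *
  have xb : ∀ q, σ.v * σ.vs * q = q → σ.x * q = 0 := fun q e => by
    rw [← e, mul_assoc, ra σ.xv, zero_mul]
  have ya : ∀ q, σ.t * σ.ts * q = q → σ.y * q = 0 := fun q e => by
    rw [← e, mul_assoc, ra σ.yt, zero_mul]
  have ax : ∀ q, q * (σ.t * σ.ts) = q → q * σ.x = 0 := fun q e => by
    rw [← e, mul_assoc, mul_assoc, σ.tx, mul_zero, mul_zero]
  have by0 : ∀ q, q * (σ.v * σ.vs) = q → q * σ.y = 0 := fun q e => by
    rw [← e, mul_assoc, mul_assoc, σ.vy, mul_zero, mul_zero]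
  let σ' : GS I J := ⟨wa * c, ts, wb * d, vs, σ.x + δ, σ.y + ε, A.tt, B.tt, a1, b1,
    by rw [mul_add, add_mul, add_mul, σ.xy, l7, by0 _ l4, xb _ m1]; abel,
    by rw [mul_add, add_mul, add_mul, σ.yx, m7, ax _ m4, ya _ l1]; abel,
    by rw [mul_add, l2, ax _ A.ta, add_zero], by rw [add_mul, l5, xb _ B.at', add_zero],
    by rw [mul_add, m2, by0 _ B.ta, add_zero], by rw [add_mul, m5, ya _ A.at', add_zero]⟩
  obtain ⟨φ, hφ⟩ := subst U (s := σ) (s' := σ')
    ⟨by change vs * _ = 0; rw [mul_sub, B.ta]; simp,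
      by change (σ.x + δ) * _ = _; rw [mul_sub, mul_one, add_mul, l4, ← mul_assoc, σ.xv]; simp,
      by change _ * (wa * c) = 0; rw [sub_mul, A.at']; simp,
      by change _ * (σ.x + δ) = _; rw [sub_mul, one_mul, mul_add, l1, mul_assoc, σ.tx]; simp⟩
    ⟨by change ts * (1 - σ.t * σ.ts) = 0; rw [mul_sub, A.ta]; simp,
      by change (σ.y + ε) * (1 - σ.t * σ.ts) = σ.y
         rw [mul_sub, mul_one, add_mul, m4, ← mul_assoc, σ.yt]; simp,
      by change (1 - σ.v * σ.vs) * (wb * d) = 0; rw [sub_mul, B.at']; simp,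
      by change (1 - σ.v * σ.vs) * (σ.y + ε) = σ.y
         rw [sub_mul, one_mul, mul_add, m1, mul_assoc, σ.vy]; simp⟩
  refine ⟨φ, σ', hφ, fun k hk => ⟨?_, ?_, ?_, ?_⟩, ⟨c, rfl⟩, a2, ⟨d, rfl⟩, b2⟩
  · rw [σ'.Xr U (B.tz k hk)]
    change C ((σ.x + δ) * _) = _
    rw [add_mul, l6 k hk, xb _ (by' k hk), zero_add]
  · rw [σ'.Xl U (A.zt k hk)]
    change C (_ * (σ.x + δ)) = _
    rw [mul_add, l3 k hk, ax _ (za k hk), zero_add]
  · refine (σ'.swap.Xr U.swap (A.tz k hk)).trans ?_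
    change C ((σ.y + ε) * _) = _
    rw [add_mul, m6 k hk, ya _ (az k hk), zero_add]
  · refine (σ'.swap.Xl U.swap (B.zt k hk)).trans ?_
    change C (_ * (σ.y + ε)) = _
    rw [mul_add, m3 k hk, by0 _ (yb k hk), zero_add]

end Z54
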