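import Pool.Agent.Lib.MP_1e63be_al.Z54.GLin

/-! The gluing step: reduction of linear forms. -/

namespace Z54

open Z87

variable {F R : Type} [Field F] [Ring R] [Algebra F R] {I J : RI R}
variable {P : Type} [Ring P] [Algebra F P] {C : R →ₐ[F] P}

theorem dual_inl {κ κ' : Type} {s : Finset κ} {s' : Finset κ'} {W y : κ ⊕ κ' → R}
    (h : DualOn (s.disjSum s') W y) : DualOn s (fun k => W (.inl k)) fun k => y (.inl k) :=
  ⟨fun a ha => h.1 _ (by simpa), fun a ha b hb e => h.2 _ (by simpa) _ (by simpa) (by simpa)⟩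

theorem dual_inr {κ κ' : Type} {s : Finset κ} {s' : Finset κ'} {W y : κ ⊕ κ' → R}
    (h : DualOn (s.disjSum s') W y) : DualOn s' (fun k => W (.inr k)) fun k => y (.inr k) :=
  ⟨fun a ha => h.1 _ (by simpa), fun a ha b hb e => h.2 _ (by simpa) _ (by simpa) (by simpa)⟩

theorem ind_cj {κ : Type} {s : Finset κ} {i j : κ → R} (h : DualOn s j i) {b : R} (hb : b ≠ 0) :
    Ind F s fun k => b * j k := fun c hc a ha => by
  have := h.sum_mul (fun k => c k • b) ha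
  simp only [smul_mul_assoc, hc, zero_mul] at this
  exact (smul_eq_zero.1 this.symm).resolve_right hb

theorem ind_ic {κ : Type} {s : Finset κ} {i j : κ → R} (h : DualOn s j i) {b : R} (hb : b ≠ 0) :
    Ind F s fun k => i k * b := fun c hc a ha => by
  have := h.mul_sum (fun k => c k • b) ha
  simp only [mul_smul_comm, hc, mul_zero] at this
  exact (smul_eq_zero.1 this.symm).resolve_right hb

theorem ind2 [Infinite F] (G : Good F R) {κ κ' : Type} {s : Finset κ} {s' : Finset κ'} {r : κ → R}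
    {r' : κ' → R} (h : Ind F s r) (h' : Ind F s' r') {K V : RI R} (hK : Essn K)
    (hV : ∃ k ∈ K, k ∉ V) : ∃ u ∈ K, u ∉ V ∧ (∃ W, DualOn s W fun a => r a * u) ∧
      ∃ W, DualOn s' W fun a => r' a * u := by
  obtain ⟨i0, i1, j0, j1, h1, h2, h3, h4, -⟩ := G.lea
  obtain ⟨u, a1, a2, W, a3⟩ := G.indK (h.sumL h' h1 h2 h3 h4) hK [V] (by simpa using hV)
  exact ⟨u, a1, a2 V (by simp), ⟨fun k => W (.inl k) * i0, (dual_inl a3).congr fun _ _ _ _ => by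
    simp [mul_assoc]⟩, fun k => W (.inr k) * i1, (dual_inr a3).congr fun _ _ _ _ => by
    simp [mul_assoc]⟩

theorem indL2 [Infinite F] (G : Good F R) {κ κ' : Type} {s : Finset κ} {s' : Finset κ'} {r : κ → R}
    {r' : κ' → R} (h : Ind F s r) (h' : Ind F s' r') {L : Ideal R} {n : R} (hn : n ∉ L) :
    ∃ u, u * n ∉ L ∧ (∃ ζ, DualOn s (fun a => u * r a) ζ) ∧
      ∃ ζ, DualOn s' (fun a => u * r' a) ζ := by
  obtain ⟨i0, i1, j0, j1, h1, h2, h3, h4, -⟩ := G.lea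
  obtain ⟨u, a1, W, a3⟩ := G.indL (h.sumR h' h1 h2 h3 h4) hn
  exact ⟨u, a1, ⟨fun k => j0 * W (.inl k), (dual_inl a3).congr fun _ _ _ _ => by
    simp [mul_assoc]⟩, fun k => j1 * W (.inr k), (dual_inr a3).congr fun _ _ _ _ => by
    simp [mul_assoc]⟩

/-- sums of terms with one letter -/
def sm (C : R →ₐ[F] P) (x : P) {κ : Type} (s : Finset κ) (c d : κ → R) : P :=
  ∑ k ∈ s, C (c k) * x * C (d k)

theorem Lin.ex {X Y p : P} (h : p ∈ Lin C X Y) : ∃ (p0 : R) (κ : Type) (s : Finset κ) (c d : κ → R)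
    (κ' : Type) (s' : Finset κ') (c' d' : κ' → R), p = C p0 + sm C X s c d + sm C Y s' c' d' := by
  induction h using AddSubgroup.closure_induction with
  | mem x hx =>
    obtain ⟨c, d, x, rfl | rfl | rfl, rfl⟩ := hx
    · exact ⟨c * d, Unit, ∅, 0, 0, Unit, ∅, 0, 0, by simp [sm]⟩
    · exact ⟨0, Unit, {()}, fun _ => c, fun _ => d, Unit, ∅, 0, 0, by simp [sm]⟩
    · exact ⟨0, Unit, ∅, 0, 0, Unit, {()}, fun _ => c, fun _ => d, by simp [sm]⟩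
  | zero => exact ⟨0, Unit, ∅, 0, 0, Unit, ∅, 0, 0, by simp [sm]⟩
  | add x y _ _ hx hy =>
    obtain ⟨p0, κ, s, c, d, κ', s', c', d', rfl⟩ := hx
    obtain ⟨q0, μ, t, e, f, μ', t', e', f', rfl⟩ := hy
    refine ⟨p0 + q0, _, s.disjSum t, Sum.elim c e, Sum.elim d f, _, s'.disjSum t', Sum.elim c' e',
      Sum.elim d' f', ?_⟩
    simp only [sm, Finset.sum_disjSum, Sum.elim_inl, Sum.elim_inr, map_add]
    abel
  | neg x _ hx =>
    obtain ⟨p0, κ, s, c, d, κ', s', c', d', rfl⟩ := hx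
    refine ⟨-p0, _, s, -c, d, _, s', -c', d', ?_⟩
    simp only [sm, Pi.neg_apply, map_neg, neg_mul, Finset.sum_neg_distrib]
    abel

/-- the bilinear map of a letter -/
def bil (C : R →ₐ[F] P) (x : P) : R →ₗ[F] R →ₗ[F] P :=
  LinearMap.mk₂ F (fun c d => C c * x * C d) (fun _ _ _ => by simp [add_mul])
    (fun _ _ _ => by simp) (fun _ _ _ => by simp [mul_add]) fun _ _ _ => by simp

theorem nfR (σ : GS I J) (U : Univ C) {κ : Type} (s : Finset κ) (c d : κ → R) :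
    ∃ (q : R) (s' : Finset κ) (c' d' : κ → R), Ind F s' d' ∧ (∀ k, σ.v * σ.vs * d' k = d' k) ∧
      sm C (σ.X U) s c d = C q + sm C (σ.X U) s' c' d' := by
  obtain ⟨s', c', -, h1, h2⟩ := nf (bil C (σ.X U)) s c fun k => σ.v * σ.vs * d k
  refine ⟨∑ k ∈ s, c k * (σ.x * (d k - σ.v * σ.vs * d k)), s', c', _, h1, fun k => ra σ.bb _, ?_⟩
  refine Eq.trans ?_ (congrArg (_ + ·) h2)
  rw [map_sum, ← Finset.sum_add_distrib]
  refine Finset.sum_congr rfl fun k _ => ?_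
  rw [map_mul, ← σ.Xr U (by rw [mul_sub, mul_assoc, ra σ.vv, one_mul, sub_self]), map_sub]
  change _ = _ + C _ * _ * C _
  noncomm_ring

theorem nfL (σ : GS I J) (U : Univ C) {κ : Type} (s : Finset κ) (c d : κ → R) :
    ∃ (q : R) (s' : Finset κ) (c' d' : κ → R), Ind F s' c' ∧ (∀ k, c' k * (σ.t * σ.ts) = c' k) ∧
      sm C (σ.X U) s c d = C q + sm C (σ.X U) s' c' d' := by
  obtain ⟨s', d', -, h1, h2⟩ := nf (bil C (σ.X U)).flip s d fun k => c k * (σ.t * σ.ts)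
  refine ⟨∑ k ∈ s, (c k - c k * (σ.t * σ.ts)) * σ.x * d k, s', _, d', h1,
    fun k => by rw [mul_assoc, σ.aa], ?_⟩
  refine Eq.trans ?_ (congrArg (_ + ·) h2)
  rw [map_sum, ← Finset.sum_add_distrib]
  refine Finset.sum_congr rfl fun k _ => ?_
  rw [map_mul, ← σ.Xl U (by rw [sub_mul, mul_assoc, mul_assoc, σ.tt, mul_one, sub_self]), map_sub]
  change _ = _ + C _ * _ * C _
  noncomm_ring

theorem Mv.sm {U : Univ C} {σ σ' : GS I J} {φ : P →ₐ[F] P} (h : Mv U σ φ σ') {κ κ' : Type}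
    (p0 : R) (s : Finset κ) (c d : κ → R) (s' : Finset κ') (c' d' : κ' → R) :
    φ (C p0 + sm C (σ.X U) s c d + sm C (σ.Y U) s' c' d') =
      C p0 + sm C (σ'.X U) s c d + sm C (σ'.Y U) s' c' d' := by
  simp only [Z54.sm, map_add, map_sum, map_mul, h.1, h.2.1, h.2.2]

theorem GS.aX (σ : GS I J) (U : Univ C) {d : R} (h : σ.v * σ.vs * d = d) :
    C (σ.t * σ.ts) * (σ.X U * C d) = σ.X U * C d := by
  have := congrArg (· * C d) (σ.Xl U (d := 1 - σ.t * σ.ts)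
    (by rw [sub_mul, mul_assoc, σ.tt, mul_one, one_mul, sub_self]))
  simp only [← map_mul] at this
  rw [← h, mul_assoc (1 - _), mul_assoc σ.v, ra σ.xv, ← mul_assoc σ.v, h, zero_mul, mul_zero,
    map_zero, map_sub, map_one, sub_mul, sub_mul, one_mul, sub_eq_zero, mul_assoc] at this
  exact this.symm

theorem GS.Xb (σ : GS I J) (U : Univ C) {c : R} (h : c * (σ.t * σ.ts) = c) :
    C c * σ.X U * C (σ.v * σ.vs) = C c * σ.X U := by
  have := congrArg (C c * ·) (σ.Xr U (d := 1 - σ.v * σ.vs)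
    (by rw [mul_sub, ra σ.vv, mul_one, one_mul, sub_self]))
  simp only [← map_mul] at this
  rw [← h, mul_assoc c, mul_assoc σ.t, ra σ.tx, h, zero_mul, mul_zero, mul_zero,
    map_zero, map_sub, map_one, mul_sub, mul_sub, mul_one, sub_eq_zero, ← mul_assoc] at this
  exact this.symm

variable [Infinite F] (G : Good F R) (hI : MaxR I) (hJ : MaxR J) (U : Univ C) (σ : GS I J)
include G hI hJ

theorem redG {κ κ' : Type} (p0 : R) {s : Finset κ} (c : κ → R) {d : κ → R} {s' : Finset κ'}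
    (c' : κ' → R) {d' : κ' → R} (hd : Ind F s d) (bd : ∀ k, σ.v * σ.vs * d k = d k)
    (hd' : Ind F s' d') (ad : ∀ k, σ.t * σ.ts * d' k = d' k) (Q : RI R) {K0 : RI R}
    (hK : Essn K0) :
    (∃ φ σ', Mv U σ φ σ' ∧ ∃ u ∈ K0, ∃ e, e ∉ Q ∧
      φ (C p0 + sm C (σ.X U) s c d + sm C (σ.Y U) s' c' d') * C u = C e) ∨
    ((∀ k ∈ s, ∀ z ∈ J, c k * (σ.t * σ.ts) * z ∈ Q) ∧
      ∀ k ∈ s', ∀ z ∈ I, c' k * (σ.v * σ.vs) * z ∈ Q) := by
  obtain ⟨i0, i1, j0, j1, h1, h2, h3, h4, -⟩ := G.lea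
  obtain ⟨i, j, hij⟩ := G.fam (s.disjSum s')
  have a0 : σ.t * σ.ts ≠ 0 := fun e => σ.aJ hJ (e ▸ J.zero_mem)
  have b0 : σ.v * σ.vs ≠ 0 := fun e => σ.bI hI (e ▸ I.zero_mem)
  have hY := hd.sumR (ind_cj (dual_inr hij) b0) h1 h2 h3 h4
  have hZ := (ind_cj (dual_inl hij) a0).sumR hd' h2 h1 h4 h3
  set Y := Sum.elim (fun a => d a * j0) fun k => σ.v * σ.vs * j (.inr k) * j1
  set Z := Sum.elim (fun k => σ.t * σ.ts * j (.inl k) * j1) fun a => d' a * j0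
  obtain ⟨K, k1, k2⟩ := Essn.all (s.disjSum s') (fun k => pre (Y k) I ⊓ pre (Z k) J) fun k _ =>
    ((Unif.essn G hI.unif).pre _).inf ((Unif.essn G hJ.unif).pre _)
  let e := Sum.elim (fun k => c k * (σ.t * σ.ts)) fun k => c' k * (σ.v * σ.vs)
  let n := p0 * j0 + ∑ k ∈ s.disjSum s', e k * (j k * j1)
  by_cases hn : ∃ u ∈ K ⊓ pre j0 K0, u ∉ pre n Q
  · obtain ⟨u, ⟨u1, u2⟩, u3, ⟨W, u4⟩, W', u5⟩ := ind2 G hZ hY (k1.inf (hK.pre j0)) hn
    obtain ⟨φ, σ', m1, m2⟩ := moveC G hI hJ U σ u4 (fun k hk => ((k2 u).1 u1 k hk).2)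
      (by rintro (k | k) - <;> simp only [Z, Sum.elim_inl, Sum.elim_inr, ← mul_assoc _ _ u,
        mul_assoc _ _ j1, ra σ.aa, ra (ad _)])
      u5 (fun k hk => ((k2 u).1 u1 k hk).1)
      (by rintro (k | k) - <;> simp only [Y, Sum.elim_inl, Sum.elim_inr, ← mul_assoc _ _ u,
        mul_assoc _ _ j1, ra σ.bb, ra (bd _)])
    refine Or.inl ⟨φ, σ', m1, j0 * u, u2, n * u, u3, ?_⟩
    rw [m1.sm]
    simp only [sm, n, Finset.sum_disjSum, add_mul, Finset.sum_mul, map_add, map_sum, add_assoc]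
    congr 1
    · rw [← map_mul, mul_assoc]
    congr 1 <;> refine Finset.sum_congr rfl fun k hk => ?_
    · rw [mul_assoc, ← map_mul, ← mul_assoc (d k), mul_assoc]
      erw [(m2 (.inl k) (by simpa)).1]
      simp only [← map_mul, e, Z, Sum.elim_inl, mul_assoc]
    · rw [mul_assoc, ← map_mul, ← mul_assoc (d' k), mul_assoc]
      erw [(m2 (.inr k) (by simpa)).2]
      simp only [← map_mul, e, Y, Sum.elim_inr, mul_assoc]
  push Not at hn
  have key : ∀ m ∈ s.disjSum s', ∀ z, z ∈ Sum.elim (fun _ => J) (fun _ => I) m → e m * z ∈ Q := by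
    classical
    intro m hm z hz
    have e1 : ∀ k ∈ s.disjSum s', j k * (j1 * (i1 * (i m * z))) = if k = m then z else 0 := by
      intro k hk
      rw [ra h2, one_mul]
      split_ifs with e
      · rw [e, ra (hij.1 m hm), one_mul]
      · rw [ra (hij.2 k hk m hm e), zero_mul]
    have := hn (i1 * (i m * z)) ⟨(k2 _).2 ?_, by simp [ra h3]⟩
    · rw [mem_pre, add_mul, mul_assoc, ra h3, zero_mul, mul_zero, zero_add, Finset.sum_mul,
        Finset.sum_congr rfl fun k hk => by rw [mul_assoc, mul_assoc, e1 k hk]] at this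
      simpa [hm] using this
    · rintro (k | k) hk
      · refine ⟨by simp [Y, mul_assoc, ra h3], ?_⟩
        change σ.t * σ.ts * _ * _ * _ ∈ J
        rw [mul_assoc, mul_assoc, e1 _ hk, σ.a_mem]
        split_ifs with e
        · subst e; exact hz
        · exact J.zero_mem
      · refine ⟨?_, by simp [Z, mul_assoc, ra h3]⟩
        change σ.v * σ.vs * _ * _ * _ ∈ I
        rw [mul_assoc, mul_assoc, e1 _ hk, σ.b_mem]
        split_ifs with e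
        · subst e; exact hz
        · exact I.zero_mem
  exact Or.inr ⟨fun k hk z hz => key (.inl k) (by simpa) z hz,
    fun k hk z hz => key (.inr k) (by simpa) z hz⟩

theorem leftG {κ κ' : Type} (p0 : R) {s : Finset κ} {c : κ → R} (d : κ → R) {s' : Finset κ'}
    {c' : κ' → R} (d' : κ' → R) (hc : Ind F s c) (ca : ∀ k, c k * (σ.t * σ.ts) = c k)
    (hc' : Ind F s' c') (cb : ∀ k, c' k * (σ.v * σ.vs) = c' k) (L : Ideal R) :
    ∃ φ σ', Mv U σ φ σ' ∧ (φ (C p0 + sm C (σ.X U) s c d + sm C (σ.Y U) s' c' d') ∈ lext C L ∨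
      ∃ r e, e ∉ L ∧ r * φ (C p0 + sm C (σ.X U) s c d + sm C (σ.Y U) s' c' d') - C e
        ∈ lext C L) := by
  obtain ⟨i0, i1, j0, j1, h1, h2, h3, h4, -⟩ := G.lea
  obtain ⟨i, j, hij⟩ := G.fam (s.disjSum s')
  have a0 : σ.t * σ.ts ≠ 0 := fun e => σ.aJ hJ (e ▸ J.zero_mem)
  have b0 : σ.v * σ.vs ≠ 0 := fun e => σ.bI hI (e ▸ I.zero_mem)
  have hZ := hc.sumL (ind_ic (dual_inr hij) a0) h1 h2 h3 h4
  have hY := (ind_ic (dual_inl hij) b0).sumL hc' h2 h1 h4 h3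
  set Z := Sum.elim (fun a => i0 * c a) fun k => i1 * (i (.inr k) * (σ.t * σ.ts))
  set Y := Sum.elim (fun k => i1 * (i (.inl k) * (σ.v * σ.vs))) fun a => i0 * c' a
  let e := Sum.elim (fun k => σ.v * σ.vs * d k) fun k => σ.t * σ.ts * d' k
  let n := i0 * p0 + i1 * ∑ k ∈ s.disjSum s', i k * e k
  by_cases hn : n ∈ L
  · refine ⟨_, σ, Mv.refl U σ, Or.inl ?_⟩
    have e0 : p0 ∈ L := by simpa [n, mul_add, ra h1, ra h3] using L.mul_mem_left j0 hn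
    have e1 : ∀ k ∈ s.disjSum s', e k ∈ L := fun k hk => by
      have := L.mul_mem_left (j k * j1) hn
      rwa [mul_add, mul_assoc, ra h4, mul_assoc (j k), ra h2, one_mul, hij.mul_sum _ hk, zero_mul,
        mul_zero, zero_add] at this
    refine add_mem (add_mem (lext_of C e0) (sum_mem fun k hk => ?_)) (sum_mem fun k hk => ?_)
    · rw [← σ.Xb U (ca k), mul_assoc, ← map_mul]
      exact lext_mul C (e1 (.inl k) (by simpa)) _
    · have := σ.swap.Xb U.swap (cb k)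
      change C _ * σ.Y U * C (σ.t * σ.ts) = C _ * σ.Y U at this
      rw [← this, mul_assoc, ← map_mul]
      exact lext_mul C (e1 (.inr k) (by simpa)) _
  obtain ⟨u, u1, ⟨ζ, u2⟩, η, u3⟩ := indL2 G hZ hY hn
  obtain ⟨t, t1, w, a1, a2, a3, a4⟩ := G.shl (σ.aJ hJ) u1 (s.disjSum s') fun k => u * Z k
  obtain ⟨t', t1', w', b1, b2, b3, b4⟩ := G.shl (σ.bI hI) a2 (s.disjSum s')
    fun k => t * (u * Y k)
  obtain ⟨φ, σ', m1, m2, -⟩ := moveR G hI hJ U σ ((u2.shrink a1).shrink b1)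
    (by rintro (k | k) - <;> simp only [Z, Sum.elim_inl, Sum.elim_inr, mul_assoc,
      ra σ.tt, one_mul, ca]) a4 (ra σ.aa _) (fun k hk => by rw [mul_assoc, a3 k hk, mul_zero])
    ((u3.shrink a1).shrink b1)
    (by rintro (k | k) - <;> simp only [Y, Sum.elim_inl, Sum.elim_inr, mul_assoc,
      ra σ.vv, one_mul, cb]) b4 (ra σ.bb _) b3 I.zero_mem
  refine ⟨φ, σ', m1, Or.inr ⟨C (t' * (t * (u * i0))), _, b2, ?_⟩⟩
  rw [m1.sm, sub_eq_zero.2]
  · exact zero_mem _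
  simp only [sm, n, Finset.sum_disjSum, mul_add, Finset.mul_sum, map_add, map_sum, add_assoc]
  congr 1
  · simp only [← map_mul, mul_assoc]
  congr 1 <;> refine Finset.sum_congr rfl fun k hk => ?_
  · rw [← mul_assoc, ← mul_assoc, ← map_mul, mul_assoc t', mul_assoc t, mul_assoc u]
    erw [(m2 (.inl k) (by simpa)).1]
    simp only [← map_mul, e, Y, Sum.elim_inl, mul_assoc]
  · rw [← mul_assoc, ← mul_assoc, ← map_mul, mul_assoc t', mul_assoc t, mul_assoc u]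
    erw [(m2 (.inr k) (by simpa)).2]
    simp only [← map_mul, e, Z, Sum.elim_inr, mul_assoc]

variable (hEI : EndF F I) (hEJ : EndF F J) (hJI : ∀ c, (∀ j ∈ J, c * j ∈ I) → c ∈ I)
  (hIJ : ∀ c, (∀ i ∈ I, c * i ∈ J) → c ∈ J)
include hEI hEJ hJI hIJ

theorem hleftG (L : Ideal R) (p : P) : ∃ φ σ', Mv U σ φ σ' ∧
    (φ p ∈ lext C L ∨ ∃ r e, e ∉ L ∧ r * φ p - C e ∈ lext C L) := by
  obtain ⟨φ, σ1, m1, hp⟩ := lin G hI hJ hEI hEJ hJI hIJ (U := U) σ p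
  obtain ⟨p0, κ, s, c, d, κ', s', c', d', e⟩ := Lin.ex hp
  obtain ⟨q, s, c, d, a1, a2, a3⟩ := nfL σ1 U s c d
  obtain ⟨q', s', c', d', b1, b2, b3⟩ := nfL σ1.swap U.swap s' c' d'
  obtain ⟨ψ, σ2, m2, h⟩ := leftG G hI hJ U σ1 (p0 + q + q') d d' a1 a2 b1 b2 L
  refine ⟨_, σ2, m1.comp m2, ?_⟩
  change sm C (σ1.Y U) _ _ _ = _ + sm C (σ1.Y U) _ _ _ at b3
  have e' : φ p = C (p0 + q + q') + sm C (σ1.X U) s c d + sm C (σ1.Y U) s' c' d' := by
    rw [e, a3, b3]; simp only [map_add]; abel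
  rwa [AlgHom.comp_apply, e']

theorem redG' (Q : RI R) {K0 : RI R} (hK : Essn K0) (p : P) : ∃ φ σ', Mv U σ φ σ' ∧
    ((∃ u ∈ K0, ∃ e, e ∉ Q ∧ φ p * C u = C e) ∨ ∃ (p0 : R) (κ : Type) (s : Finset κ) (c d : κ → R)
      (κ' : Type) (s' : Finset κ') (c' d' : κ' → R),
      φ p = C p0 + sm C (σ'.X U) s (fun k => c k * (σ'.t * σ'.ts)) d +
        sm C (σ'.Y U) s' (fun k => c' k * (σ'.v * σ'.vs)) d' ∧
      (∀ k ∈ s, ∀ z ∈ J, c k * (σ'.t * σ'.ts) * z ∈ Q) ∧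
      ∀ k ∈ s', ∀ z ∈ I, c' k * (σ'.v * σ'.vs) * z ∈ Q) := by
  obtain ⟨φ, σ1, m1, hp⟩ := lin G hI hJ hEI hEJ hJI hIJ (U := U) σ p
  obtain ⟨p0, κ, s, c, d, κ', s', c', d', e⟩ := Lin.ex hp
  obtain ⟨q, s, c, d, a1, a2, a3⟩ := nfR σ1 U s c d
  obtain ⟨q', s', c', d', b1, b2, b3⟩ := nfR σ1.swap U.swap s' c' d'
  change sm C (σ1.Y U) _ _ _ = _ + sm C (σ1.Y U) _ _ _ at b3
  have e' : φ p = C (p0 + q + q') + sm C (σ1.X U) s c d + sm C (σ1.Y U) s' c' d' := by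
    rw [e, a3, b3]; simp only [map_add]; abel
  rcases redG G hI hJ U σ1 (p0 + q + q') c c' a1 a2 b1 b2 Q hK with ⟨ψ, σ2, m2, h⟩ | h
  · exact ⟨_, σ2, m1.comp m2, Or.inl (by rwa [AlgHom.comp_apply, e'])⟩
  · refine ⟨φ, σ1, m1, Or.inr ⟨p0 + q + q', _, s, c, d, _, s', c', d', ?_, h⟩⟩
    rw [e']
    refine congrArg₂ _ (congrArg _ ?_) ?_ <;> refine Finset.sum_congr rfl fun k _ => ?_
    · rw [map_mul, mul_assoc, mul_assoc, mul_assoc, σ1.aX U (a2 k)]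
    · have := σ1.swap.aX U.swap (b2 k)
      change C (σ1.v * σ1.vs) * (σ1.Y U * _) = σ1.Y U * _ at this
      rw [map_mul, mul_assoc, mul_assoc, mul_assoc, this]

omit G hI hJ hEI hEJ hJI hIJ [Infinite F] U σ in
theorem nu_max {Q : RI R} (hQ : NU Q) (hJ : MaxR J) {x : R} (h : ∀ z ∈ J, x * z ∈ Q) : x ∈ Q := by
  by_contra hx
  obtain ⟨c1, c2, h1, h2, h3⟩ := hQ x hx
  obtain ⟨d1, e1⟩ := hJ.2 c1 fun e => h1 (h _ e)
  obtain ⟨d2, e2⟩ := hJ.2 c2 fun e => h2 (h _ e)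
  have := h3 d1 d2 (RI.cast (h _ (RI.trans e1 (RI.symm e2))) (by noncomm_ring))
  exact hx (RI.cast (Q.sub_mem this (h _ e1)) (by noncomm_ring))

omit G hI hJ hEI hEJ hJI hIJ [Infinite F] U σ in
theorem sm_ext {Q : RI R} {x : P} {κ : Type} {s : Finset κ} {c d : κ → R} (h : ∀ k ∈ s, c k ∈ Q) :
    sm C x s c d ∈ ext C Q :=
  sum_mem fun k hk => RI.mul (ext_mul C (h k hk) x) _

theorem hredG {Q : RI R} (hQ : NU Q) (p : P) : ∃ φ σ', Mv U σ φ σ' ∧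
    ((∃ c, φ p - C c ∈ ext C Q) ∨ ∃ r c, c ∉ Q ∧ φ p * r - C c ∈ ext C Q) := by
  obtain ⟨φ, σ', m, h⟩ := redG' G hI hJ U σ hEI hEJ hJI hIJ Q Essn.top p
  refine ⟨φ, σ', m, ?_⟩
  rcases h with ⟨u, -, e, h1, h2⟩ | ⟨p0, κ, s, c, d, κ', s', c', d', e, h1, h2⟩
  · exact Or.inr ⟨C u, e, h1, by rw [h2, sub_self]; exact zero_mem _⟩
  · refine Or.inl ⟨p0, ?_⟩
    rw [e, add_assoc, add_sub_cancel_left]
    exact add_mem (sm_ext fun k hk => nu_max hQ hJ (h1 k hk))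
      (sm_ext fun k hk => nu_max hQ hI (h2 k hk))

omit G hEI hEJ hJI [Infinite F] U σ in
theorem hom0 (q : R) {β : R} (hβ : β ∉ J) : ∃ r ∈ I, q * r ∈ I ∧ β * r - 1 ∈ J := by
  obtain ⟨r, h1, h2, h3⟩ : ∃ r ∈ I, q * r ∈ I ∧ β * r ∉ J := by
    by_contra hn
    push Not at hn
    refine hβ (hIJ β fun i hi => ?_)
    by_cases h : q * i ∈ I
    · exact hn i hi h
    obtain ⟨c, hc⟩ := hI.2 _ h
    have a1 : β * i * c ∈ J := hIJ _ fun k hk => RI.cast (hn (i * c * k) (RI.mul (RI.mul hi _) _)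
      (RI.cast (I.add_mem (RI.mul hc k) hk) (by noncomm_ring))) (by noncomm_ring)
    have a2 := hn (i - i * c * (q * i)) (I.sub_mem hi (RI.mul (RI.mul hi _) _))
      (RI.cast (RI.mul (RI.symm hc) (q * i)) (by noncomm_ring))
    exact RI.cast (J.add_mem a2 (RI.mul a1 (q * i))) (by noncomm_ring)
  obtain ⟨c, hc⟩ := hJ.2 _ h3
  exact ⟨r * c, RI.mul h1 c, mul_assoc q r c ▸ RI.mul h2 c, mul_assoc β r c ▸ hc⟩

theorem hSG (p : P) : ∃ φ σ', Mv U σ φ σ' ∧ ((∃ c, φ p - C c ∈ ext C I) ∨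
    ∃ r ∈ ext C I, ∃ c, c ∉ I ∧ φ p * r - C c ∈ ext C I) := by
  obtain ⟨φ, σ1, m, h⟩ := redG' G hI hJ U σ hEI hEJ hJI hIJ I (Unif.essn G hI.unif) p
  rcases h with ⟨u, h0, e, h1, h2⟩ | ⟨p0, κ, s, c, d, κ', s', c', d', e, h1, h2⟩
  · exact ⟨φ, σ1, m, Or.inr ⟨C u, ext_of C h0, e, h1, by rw [h2, sub_self]; exact zero_mem _⟩⟩
  choose! μ hμ using fun k hk => hEI _ (h2 k hk)
  obtain ⟨β, hβ⟩ : ∃ β, φ p - (C p0 + σ1.Y U * C β) ∈ ext C I := by
    refine ⟨∑ k ∈ s', μ k • d' k, RI.cast (add_mem (sm_ext (x := σ1.X U) (d := d) fun k hk =>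
      hJI _ (h1 k hk)) (sm_ext (x := σ1.Y U) (d := d') hμ)) ?_⟩
    rw [e]
    simp only [sm, map_sub, sub_mul, Finset.sum_sub_distrib, map_sum, Finset.mul_sum, map_smul,
      AlgHom.commutes, ← Algebra.smul_def, smul_mul_assoc, mul_smul_comm]
    abel
  have up : ∀ {ψ σ2}, Mv U σ1 ψ σ2 → ψ (φ p) - (C p0 + σ2.Y U * C β) ∈ ext C I := by
    intro ψ σ2 m2
    simpa only [map_sub, map_add, map_mul, m2.1, m2.2.2] using ext_map C C ψ m2.1 hβ
  by_cases hb : β ∈ J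
  · obtain ⟨ψ, σ2, m2, a1, -⟩ := exh G hI hJ U σ1 hb I.zero_mem
    refine ⟨_, σ2, m.comp m2, Or.inl ⟨p0 + σ2.y * β, ?_⟩⟩
    have := σ2.swap.Xr U.swap a1
    change σ2.Y U * _ = C (σ2.y * _) at this
    rw [map_add, ← this]
    exact up m2
  obtain ⟨r, r1, r2, r3⟩ := hom0 hI hJ hIJ p0 hb
  obtain ⟨ψ, σ2, m2, a1, -⟩ := exh G hI hJ U σ1 r3 I.zero_mem
  refine ⟨_, σ2, m.comp m2, Or.inr ⟨C r * σ2.X U, ext_mul C r1 _, 1, hI.1, ?_⟩⟩
  have := σ2.swap.Xr U.swap a1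
  change σ2.Y U * _ = C (σ2.y * _) at this
  refine RI.cast (add_mem (add_mem (RI.mul (up m2) (C r * σ2.X U)) (ext_mul C r2 (σ2.X U)))
    (ext_mul C (RI.mul σ2.yI (β * r - 1)) (σ2.X U))) ?_
  rw [← this, map_one, ← σ2.YX U, AlgHom.comp_apply]
  simp only [map_mul, map_sub, map_one]
  noncomm_ring

end Z54
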