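import Pool.Agent.Lib.MP_1e63be_al.Z54.Calkin

/-! The starting ring. -/

namespace Z54

open Z87

theorem exists_closed {B : Type} (s0 : Set B) (h0 : s0.Countable) (f : B → B → Set B)
    (hf : ∀ x y, (f x y).Countable) :
    ∃ S : Set B, s0 ⊆ S ∧ S.Countable ∧ ∀ x ∈ S, ∀ y ∈ S, f x y ⊆ S := by
  let op : Set B → Set B := fun S => S ∪ ⋃ x ∈ S, ⋃ y ∈ S, f x y
  let A : ℕ → Set B := fun n => op^[n] s0
  have hs : ∀ n, A (n + 1) = op (A n) := fun n => Function.iterate_succ_apply' _ _ _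
  have hm : Monotone A := monotone_nat_of_le_succ fun n => hs n ▸ Set.subset_union_left
  have hc : ∀ n, (A n).Countable := by
    intro n
    induction n with
    | zero => exact h0
    | succ n ih => exact hs n ▸ ih.union (ih.biUnion fun x _ => ih.biUnion fun y _ => hf x y)
  refine ⟨⋃ n, A n, Set.subset_iUnion A 0, Set.countable_iUnion hc, fun x hx y hy z hz => ?_⟩
  obtain ⟨n, hn⟩ := Set.mem_iUnion.1 hx
  obtain ⟨m, hm'⟩ := Set.mem_iUnion.1 hy
  refine Set.mem_iUnion.2 ⟨max n m + 1, ?_⟩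
  rw [hs]
  exact Or.inr (Set.mem_biUnion (hm (le_max_left n m) hn)
    (Set.mem_biUnion (hm (le_max_right n m) hm') hz))

variable {F : Type} [Field F]

theorem exists_good_countable (F : Type) [Field F] [Countable F] :
    ∃ (R : Type) (_ : Ring R) (_ : Algebra F R) (_ : Countable R), Good F R := by
  classical
  obtain ⟨B, _, _, h⟩ := exists_good F
  choose rg hrg using h.reg
  choose! ps pt hp using h.pi
  have hw : ∀ c : B, ∃ y, c * y = y * c → ∃ l : F, c = algebraMap F B l := by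
    intro c
    by_cases hc : ∀ y, c * y = y * c
    · exact ⟨0, fun _ => h.cen c hc⟩
    · push Not at hc
      obtain ⟨y, hy⟩ := hc
      exact ⟨y, fun k => (hy k).elim⟩
  choose w hw using hw
  obtain ⟨i0, i1, j0, j1, h1, h2, h3, h4, h5⟩ := h.lea
  obtain ⟨S, k0, k1, k2⟩ := exists_closed ({i0, i1, j0, j1} ∪ Set.range (algebraMap F B))
    ((Set.toFinite _).countable.union (Set.countable_range _))
    (fun x y => {x + y, x * y, rg x, ps x, pt x, w x}) fun x y => (Set.toFinite _).countable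
  let A : Subalgebra F B :=
    { carrier := S
      mul_mem' := fun {a b} ha hb => k2 a ha b hb (by simp)
      add_mem' := fun {a b} ha hb => k2 a ha b hb (by simp)
      algebraMap_mem' := fun l => k0 (Or.inr ⟨l, rfl⟩) }
  refine ⟨A, inferInstance, inferInstance, k1.to_subtype, ?_, ?_, ?_, ?_, ?_⟩
  · exact fun k => h.nt (congrArg Subtype.val k)
  · exact fun y => ⟨⟨rg y, k2 _ y.2 _ y.2 (by simp)⟩, Subtype.ext (hrg y)⟩
  · exact fun y hy => ⟨⟨ps y, k2 _ y.2 _ y.2 (by simp)⟩, ⟨pt y, k2 _ y.2 _ y.2 (by simp)⟩,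
      Subtype.ext (hp y fun k => hy (Subtype.ext k))⟩
  · exact ⟨⟨i0, k0 (by simp)⟩, ⟨i1, k0 (by simp)⟩, ⟨j0, k0 (by simp)⟩, ⟨j1, k0 (by simp)⟩,
      Subtype.ext h1, Subtype.ext h2, Subtype.ext h3, Subtype.ext h4, Subtype.ext h5⟩
  · intro c hc
    obtain ⟨l, hl⟩ := hw c (congrArg Subtype.val (hc ⟨w c, k2 _ c.2 _ c.2 (by simp)⟩))
    exact ⟨l, Subtype.ext hl⟩

variable {R : Type} [Ring R] [Algebra F R]

/-- every element can be compressed to a scalar -/
theorem compress (h : Good F R) (c : R) :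
    ∃ s t : R, s * t = 1 ∧ ∃ l : F, s * c * t = algebraMap F R l := by
  by_cases hc : ∃ e : R, e * e = e ∧ (1 - e) * c * e ≠ 0
  · obtain ⟨e, h1, h2⟩ := hc
    obtain ⟨s, t, h3⟩ := h.pi _ h2
    have h4 : s * (1 - e) * (e * t) = 0 := by
      rw [mul_assoc, ← mul_assoc _ e, sub_mul, h1]; simp
    have h5 : s * (1 - e) * c * (e * t) = 1 := by simpa only [mul_assoc] using h3
    refine ⟨s * (1 - e) * c * (1 - c * (e * t) * (s * (1 - e))), e * t, ?_, 0, ?_⟩
    · rw [mul_assoc _ (1 - _), sub_mul, mul_assoc _ _ (e * t), h4, mul_zero, one_mul, sub_zero, h5]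
    · have : s * (1 - e) * (c * (e * t)) = 1 := by rw [← mul_assoc, h5]
      rw [mul_assoc, mul_assoc _ (1 - _), sub_mul, mul_assoc _ _ (c * _), this]; simp
  push Not at hc
  have k1 : ∀ e : R, e * e = e → c * e = e * c := by
    intro e he
    have a1 := hc e he
    have a2 := hc (1 - e) (by rw [mul_sub, sub_mul, sub_mul, he]; simp)
    rw [sub_sub_cancel, mul_sub, mul_one, sub_eq_zero] at a2
    rw [sub_mul, sub_mul, one_mul, sub_eq_zero] at a1
    rw [a1, ← a2]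
  have k2 : ∀ e x : R, e * e = e → e * x = x → x * e = 0 → c * x = x * c := by
    intro e x a1 a2 a3
    have a4 : x * x = 0 := by
      conv_lhs => rw [← a2]
      rw [mul_assoc, ← mul_assoc x e, a3]; simp
    have := k1 (e + x) (by rw [add_mul, mul_add, mul_add, a1, a2, a3, a4]; simp)
    rwa [mul_add, add_mul, k1 e a1, add_right_inj] at this
  obtain ⟨i0, i1, j0, j1, h1, h2, h3, h4, h5⟩ := h.lea
  have k3 : ∀ z, j0 * c * i0 * z = z * (j1 * c * i1) := by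
    intro z
    have := k2 (i0 * j0) (i0 * z * j1) (by rw [mul_assoc, ← mul_assoc j0, h1, one_mul])
      (by rw [mul_assoc, ← mul_assoc j0, ← mul_assoc j0, h1, one_mul, mul_assoc])
      (by rw [mul_assoc, ← mul_assoc j1, h4]; simp)
    have a1 := congrArg (fun x => j0 * x * i1) this
    simp only [mul_assoc, h2, mul_one] at a1
    rw [← mul_assoc j0 i0, h1, one_mul] at a1
    simpa only [mul_assoc] using a1
  have k4 := k3 1
  rw [mul_one, one_mul] at k4
  obtain ⟨l, hl⟩ := h.cen (j0 * c * i0) fun y => by rw [k3, k4]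
  exact ⟨j0, i0, h1, l, hl⟩

theorem exists_simple [Countable R] (h : Good F R) : ∃ I : RI R, SimpleF F I := by
  obtain ⟨r, hr⟩ := exists_surjective_nat R
  have st : ∀ (s : {s : R // ∃ t, s * t = 1}) (x : R), ∃ s' : {s : R // ∃ t, s * t = 1},
      (∃ u, s'.1 = u * s.1) ∧ (∃ t, s'.1 * t = 1 ∧ ∃ l : F, s'.1 * x * t = algebraMap F R l) ∧
      (s'.1 * x = 0 ∨ ∃ c, s'.1 * x * c = s'.1) := by
    rintro ⟨s, t, hs⟩ x
    have : ∃ u t, u * s * t = 1 ∧ (u * s * x = 0 ∨ ∃ c, u * s * x * c = u * s) := by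
      by_cases h0 : s * x = 0
      · exact ⟨1, t, by simpa using hs, Or.inl (by simpa using h0)⟩
      · obtain ⟨u, v, h1⟩ := h.pi _ h0
        exact ⟨u, x * v, by simpa only [mul_assoc] using h1, Or.inr ⟨v * (u * s), by
          rw [← mul_assoc, mul_assoc u s x, h1, one_mul]⟩⟩
    obtain ⟨u, t, h1, h2⟩ := this
    obtain ⟨s', t', h3, l, h4⟩ := compress h (u * s * x * t)
    have h5 : s' * (u * s) * (t * t') = 1 := by
      rw [mul_assoc, ← mul_assoc _ t, h1, one_mul, h3]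
    refine ⟨⟨s' * (u * s), _, h5⟩, ⟨s' * u, (mul_assoc _ _ _).symm⟩,
      ⟨_, h5, l, by simpa only [mul_assoc] using h4⟩, h2.imp (fun k => ?_) fun ⟨c, k⟩ => ⟨c, ?_⟩⟩
    · simp only [mul_assoc s', k, mul_zero]
    · simp only [mul_assoc s', k]
  choose nx h1 h2 h3 using st
  let s : ℕ → {s : R // ∃ t, s * t = 1} := fun n => Nat.rec ⟨1, 1, mul_one 1⟩ (fun n s => nx s (r n)) n
  have hs : ∀ n, s (n + 1) = nx (s n) (r n) := fun n => rfl
  have hm : ∀ n m, n ≤ m → ∃ u, (s m).1 = u * (s n).1 := by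
    intro n m hnm
    induction hnm with
    | refl => exact ⟨1, (one_mul _).symm⟩
    | step _ ih =>
      obtain ⟨u, hu⟩ := ih
      obtain ⟨v, hv⟩ := h1 (s _) (r _)
      exact ⟨v * u, by rw [hs, hv, hu, mul_assoc]⟩
  have hz : ∀ n m y, n ≤ m → (s n).1 * y = 0 → (s m).1 * y = 0 := by
    intro n m y a1 a2
    obtain ⟨u, hu⟩ := hm n m a1
    rw [hu, mul_assoc, a2, mul_zero]
  let I : RI R :=
    { carrier := {y | ∃ n, (s n).1 * y = 0}
      add_mem' := fun {a b} ⟨n, hn⟩ ⟨m, hm⟩ => ⟨max n m, by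
        rw [mul_add, hz _ _ _ (le_max_left n m) hn, hz _ _ _ (le_max_right n m) hm, add_zero]⟩
      zero_mem' := ⟨0, mul_zero _⟩
      smul_mem' := fun c a ⟨n, hn⟩ => ⟨n, by
        rw [MulOpposite.smul_eq_mul_unop, ← mul_assoc, hn, zero_mul]⟩ }
  refine ⟨I, ⟨?_, fun x hx => ?_⟩, fun x hx => ?_⟩
  · rintro ⟨n, hn⟩
    obtain ⟨t, ht⟩ := (s n).2
    rw [mul_one] at hn
    exact h.nt (by rw [← ht, hn, zero_mul])
  · obtain ⟨n, rfl⟩ := hr x
    rcases h3 (s n) (r n) with k | ⟨c, k⟩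
    · exact (hx ⟨n + 1, k⟩).elim
    · exact ⟨c, n + 1, by rw [mul_sub, ← mul_assoc, hs, k, mul_one, sub_self]⟩
  · obtain ⟨n, rfl⟩ := hr x
    obtain ⟨t, k1, l, k2⟩ := h2 (s n) (r n)
    rw [← hs] at k1 k2
    obtain ⟨m, k3⟩ := hx (1 - t * (s (n + 1)).1) ⟨n + 1, by
      rw [mul_sub, ← mul_assoc, k1, mul_one, one_mul, sub_self]⟩
    have k4 := hz _ _ _ (le_max_left m (n + 1)) k3
    obtain ⟨u, hu⟩ := hm _ _ (le_max_right m (n + 1))
    refine ⟨l, max m (n + 1), ?_⟩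
    rw [← k4, hu, mul_assoc, mul_assoc, mul_sub, mul_sub, mul_sub, mul_one, ← Algebra.commutes,
      ← k2]
    simp only [mul_assoc, mul_sub]

theorem exists_left [Countable R] (h : Good F R) : ∃ L1 L2 : Ideal R, MaxL L1 ∧ MaxL L2 ∧
    ∀ c, (∀ y ∈ L2, y * c ∈ L1) → c ∈ L1 := by
  have : Nontrivial R := ⟨1, 0, h.nt⟩
  have mx : ∀ L : Ideal R, L.IsMaximal → MaxL L := fun L hL =>
    ⟨fun k => hL.ne_top ((Ideal.eq_top_iff_one _).2 k), fun x hx => by
      obtain ⟨y, c, h1, h2⟩ := hL.exists_inv hx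
      exact ⟨y, by rw [← h2]; simpa using h1⟩⟩
  obtain ⟨L1, hL1⟩ := Ideal.exists_maximal R
  obtain ⟨r, hr⟩ := exists_surjective_nat R
  obtain ⟨i0, i1, j0, j1, h1, h2, h3, h4, h5⟩ := h.lea
  have st : ∀ (b : {b : R // b ≠ 0}) (x : R), ∃ b' : {b : R // b ≠ 0},
      (∃ u, b'.1 = b.1 * u) ∧ (x ∈ L1 ∨ ∃ y, y * b'.1 = 0 ∧ y * x ∉ L1) := by
    rintro ⟨b, hb⟩ x
    obtain ⟨s, t, k⟩ := h.pi b hb
    have k' : ∀ z, s * (b * (t * z)) = z := fun z => by
      rw [← mul_assoc, ← mul_assoc, k, one_mul]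
    by_cases hx : x ∈ L1
    · exact ⟨⟨b, hb⟩, ⟨1, (mul_one _).symm⟩, Or.inl hx⟩
    by_cases hp : b * (t * (i0 * (j0 * s))) * x ∈ L1
    · refine ⟨⟨b * (t * i0), fun e => h.nt ?_⟩, ⟨_, rfl⟩,
        Or.inr ⟨1 - b * (t * (i0 * (j0 * s))), ?_, fun e => hx ?_⟩⟩
      · rw [← h1, ← k' i0, e]; simp
      · simp only [sub_mul, mul_assoc, k', h1, mul_one, one_mul, sub_self]
      · simpa [sub_mul] using L1.add_mem e hp
    · refine ⟨⟨b * (t * i1), fun e => h.nt ?_⟩, ⟨_, rfl⟩, Or.inr ⟨_, ?_, hp⟩⟩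
      · rw [← h2, ← k' i1, e]; simp
      · simp only [mul_assoc, k', h3, mul_zero]
  choose nx k1 k2 using st
  let b : ℕ → {b : R // b ≠ 0} := fun n => Nat.rec ⟨1, h.nt⟩ (fun n s => nx s (r n)) n
  have hb : ∀ n, b (n + 1) = nx (b n) (r n) := fun n => rfl
  have hz : ∀ n m y, n ≤ m → y * (b n).1 = 0 → y * (b m).1 = 0 := by
    intro n m y hnm a
    induction hnm with
    | refl => exact a
    | step _ ih =>
      obtain ⟨v, hv⟩ := k1 (b _) (r _)
      rw [hb, hv, ← mul_assoc, ih, zero_mul]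
  let L : Ideal R :=
    { carrier := {y | ∃ n, y * (b n).1 = 0}
      add_mem' := fun {x y} ⟨n, hn⟩ ⟨m, hm⟩ => ⟨max n m, by
        rw [add_mul, hz _ _ _ (le_max_left n m) hn, hz _ _ _ (le_max_right n m) hm, add_zero]⟩
      zero_mem' := ⟨0, zero_mul _⟩
      smul_mem' := fun c a ⟨n, hn⟩ => ⟨n, by rw [smul_eq_mul, mul_assoc, hn, mul_zero]⟩ }
  obtain ⟨L2, a1, a2⟩ := L.exists_le_maximal fun k => by
    obtain ⟨n, hn⟩ := (Ideal.eq_top_iff_one _).1 k
    exact (b n).2 (by simpa using hn)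
  refine ⟨L1, L2, mx _ hL1, mx _ a1, fun c hc => ?_⟩
  obtain ⟨n, rfl⟩ := hr c
  rcases k2 (b n) (r n) with k | ⟨y, a3, a4⟩
  · exact k
  · exact (a4 (hc y (a2 ⟨n + 1, a3⟩))).elim

theorem step0 (F : Type) [Field F] [Countable F] : St_STEP0 F := by
  obtain ⟨R, _, _, _, h⟩ := exists_good_countable F
  obtain ⟨I, hI⟩ := exists_simple h
  exact ⟨R, _, _, inferInstance, h, I, hI, exists_left h⟩

end Z54
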