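import Pool.Agent.Lib.MP_1e63be_al.Z54.GRed
import Pool.Agent.Lib.MP_1e63be_al.Z54.Step0

/-! The gluing step: regularity and the universal unit. -/

namespace Z54

open Z87

variable {F R : Type} [Field F] [Ring R] [Algebra F R] {I J : RI R}
variable {P : Type} [Ring P] [Algebra F P] {C : R →ₐ[F] P}

theorem Mv.g {U : Univ C} {σ σ' : GS I J} {φ : P →ₐ[F] P} (h : Mv U σ φ σ') :
    φ (σ.g U) = σ'.X U - C σ.x := by rw [σ.g_eq, map_sub, h.1, h.2.1]

theorem Mv.g_ex {U : Univ C} {σ σ' : GS I J} {φ : P →ₐ[F] P} (h : Mv U σ φ σ') :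
    ∃ δ, φ (σ.g U) = C δ + σ'.g U := ⟨σ'.x - σ.x, by rw [h.g, GS.X, map_sub]; abel⟩

theorem GS.ag (σ : GS I J) (U : Univ C) : C (σ.t * σ.ts) * σ.g U = σ.g U := by
  simp only [GS.g, mul_assoc, map_mul, cm σ.tt, map_one, one_mul]

theorem GS.gb (σ : GS I J) (U : Univ C) : σ.g U * C (σ.v * σ.vs) = σ.g U := by
  simp only [GS.g, mul_assoc, map_mul, cm σ.vv, map_one, one_mul]

theorem hstepG [Infinite F] (G : Good F R) (hI : MaxR I) (hJ : MaxR J) (U : Univ C) (σ : GS I J)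
    (e : R) (Λ : Finset ℕ) (l' l : ℕ → R) (he : e * e = e) (hΛ : Λ.Nonempty)
    (lb : ∀ i ∈ Λ, l i * (σ.v * σ.vs) = l i) (hB : Ind F Λ fun i => (1 - e) * l' i * (σ.t * σ.ts))
    (hA : Ind F Λ fun i => (1 - e) * l i) :
    ∃ φ σ', Mv U σ φ σ' ∧ (∃ δ, φ (σ.g U) = C δ + σ'.g U) ∧ ∃ i0 ∈ Λ, ∃ ω v w c : R,
      ω * e = 0 ∧ (∀ i ∈ Λ, i ≠ i0 → C ω * (C (l' i) * φ (σ.g U) - C (l i)) = 0) ∧
      C ω * (C (l' i0) * φ (σ.g U) - C (l i0)) = C w ∧ v * w * v = v ∧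
      (C (l' i0) * φ (σ.g U) - C (l i0)) * C (1 - v * w) = C c := by
  obtain ⟨m, hm⟩ := hΛ
  obtain ⟨i0, i1, j0, j1, h1, h2, h3, h4, -⟩ := G.lea
  obtain ⟨ii, jj, hij⟩ := G.fam Λ
  obtain ⟨u, u1, u2, W, hW⟩ := G.indK ((hA.sumR hA h1 h2 h3 h4).sumR (hB.sumR hB h1 h2 h3 h4)
    h1 h2 h3 h4) ((Unif.essn G hI.unif).pre (j1 * j0)) [pre (j0 * j0) I, pre (j0 * j1) J] (by
      simp only [List.mem_cons, List.not_mem_nil, or_false, forall_eq_or_imp, forall_eq, mem_pre]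
      exact ⟨⟨i0 * i0, by simp [mul_assoc, ra h1, h4], by simpa [mul_assoc, ra h1, h1] using hI.1⟩,
        i1 * i0, by simp [mul_assoc, ra h3], by simpa [mul_assoc, ra h2, h1] using hJ.1⟩)
  have u3 : σ.v * σ.vs * (j0 * j0 * u) ∉ I := fun k => u2 (pre (j0 * j0) I) (by simp) (σ.b_mem.1 k)
  have u4 : σ.t * σ.ts * (j0 * j1 * u) ∉ J := fun k => u2 (pre (j0 * j1) J) (by simp) (σ.a_mem.1 k)
  have hω := fun a => hW.sum_mul (Sum.elim
    (Sum.elim (fun i => if i = m then 1 else 0) jj) (Sum.elim 0 jj)) (a := a)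
  generalize Finset.sum (M := R) ((Λ.disjSum Λ).disjSum (Λ.disjSum Λ)) _ = ω at hω
  have Ab : ∀ i ∈ Λ, ∀ z, (1 - e) * l i * (σ.v * σ.vs * z) = (1 - e) * l i * z := fun i hi z => by
    rw [mul_assoc, ra (lb i hi), mul_assoc]
  generalize hv : σ.v * σ.vs * (j0 * j0 * u) = v at u3
  generalize ht : σ.t * σ.ts * (j0 * j1 * u) = t at u4
  have w1 : ∀ i ∈ Λ, ω * ((1 - e) * l i) * v = if i = m then 1 else 0 := fun i hi => by
    rw [← hv, mul_assoc, Ab i hi]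
    simpa [mul_assoc] using hω (.inl (.inl i)) (by simpa)
  have w2 : ∀ i ∈ Λ, ω * ((1 - e) * l i) * (j1 * j0 * u) = jj i := fun i hi => by
    simpa [mul_assoc] using hω (.inl (.inr i)) (by simpa)
  have w3 : ∀ i ∈ Λ, ω * ((1 - e) * l' i * (σ.t * σ.ts)) * t = 0 := fun i hi => by
    rw [← ht, mul_assoc, mul_assoc, ra σ.aa]
    simpa [mul_assoc] using hω (.inr (.inl i)) (by simpa)
  have w4 : ∀ i ∈ Λ, ω * ((1 - e) * l' i * (σ.t * σ.ts)) * (j1 * j1 * u) = jj i := fun i hi => by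
    simpa [mul_assoc] using hω (.inr (.inr i)) (by simpa)
  obtain ⟨k, k1, k2, k3, c, d, k4⟩ := join2 G.reg (j1 * j0 * u) (1 - σ.v * σ.vs)
  obtain ⟨vs, a1, a2, a3⟩ := ch0 hI u3 (w := W (.inl (.inl m)) * ((1 - e) * l m)) (h := k)
    (by
      rw [← hv, mul_assoc, Ab m hm]
      simpa [mul_assoc] using hW.1 (.inl (.inl m)) (by simpa))
    (k4 ▸ I.add_mem (RI.mul (mem_pre.1 u1) c) (RI.mul σ.hI d)) k1
    (by
      have := hW.2 (.inl (.inl m)) (by simpa) (.inl (.inr m)) (by simpa) (by simp)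
      simp only [Sum.elim_inl, Sum.elim_inr, mul_assoc] at this
      rw [k4, mul_add, sub_mul _ _ d, mul_sub, mul_assoc _ _ (_ * _ * d), Ab m hm, one_mul,
        ← mul_assoc _ _ d, sub_self, add_zero, ← mul_assoc]
      simp only [mul_assoc _ _ (j1 * (j0 * u)), mul_assoc _ _ u, this, zero_mul])
  have a4 : vs * (j1 * j0 * u) = 0 := by rw [← k2, ra a2, zero_mul]
  have a5 : vs * (σ.v * σ.vs) = vs := by
    have : vs * (1 - σ.v * σ.vs) = 0 := by rw [← k3, ra a2, zero_mul]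
    rw [mul_sub, mul_one, sub_eq_zero] at this
    exact this.symm
  obtain ⟨φ, σ', m1, m2, m3⟩ := moveR G hI hJ U σ (s := Λ)
    (zs := fun i => ω * ((1 - e) * l' i * (σ.t * σ.ts))) (ζ := fun i => j1 * j1 * u * ii i)
    (ys := fun i => ω * ((1 - e) * l i) * (1 - v * vs)) (η := fun i => j1 * j0 * u * ii i)
    (hij.congr fun a ha b _ => by rw [← mul_assoc, w4 a ha])
    (fun i _ => by rw [mul_assoc, mul_assoc, σ.aa]) u4 (ht ▸ ra σ.aa _) w3
    (hij.congr fun a ha b _ => by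
      rw [← mul_assoc, mul_assoc _ (1 - _), sub_mul 1 (v * vs), mul_assoc v, a4, mul_zero, sub_zero, one_mul,
        w2 a ha])
    (fun i hi => by
      rw [mul_assoc, sub_mul 1 (v * vs), mul_assoc v, a5, mul_sub, mul_sub, mul_one, one_mul,
        mul_assoc ω, mul_assoc (1 - e), lb i hi])
    u3 (hv ▸ ra σ.bb _) (fun i _ => by rw [mul_assoc, sub_mul 1 (v * vs), mul_assoc v, a1]; simp) a3
  have key : ∀ i ∈ Λ, C (ω * (1 - e)) * (C (l' i) * φ (σ.g U) - C (l i))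
      = C (-((if i = m then 1 else 0) * vs)) := by
    intro i hi
    have : φ (σ.g U) = C (σ.t * σ.ts) * σ'.X U := by
      rw [← σ.ag U, map_mul, m1.1, m1.g, mul_sub, ← map_mul, mul_assoc, σ.tx]; simp
    rw [this, mul_sub, cm rfl, cm rfl, mul_assoc ω, mul_assoc ω, (m2 i hi).1, ← map_mul, ← map_sub,
      ← w1 i hi]
    congr 1
    noncomm_ring
  refine ⟨φ, σ', m1, m1.g_ex, m, hm, ω * (1 - e), -v, -vs,
    l' m * (σ'.x * (1 - v * vs) - σ.x * (1 - v * vs)) - l m * (1 - v * vs),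
    by rw [mul_assoc, sub_mul, he]; simp, fun i hi e => by rw [key i hi]; simp [e],
    by rw [key m hm]; simp, by simp [mul_assoc, a1], ?_⟩
  rw [neg_mul_neg, m1.g, sub_mul, mul_assoc, sub_mul, σ'.Xr U m3]
  simp only [map_sub, map_mul]

theorem exists_univ (F R : Type) [Field F] [Ring R] [Algebra F R] [Countable F] [Countable R] :
    ∃ (P : Type) (_ : Ring P) (_ : Algebra F P) (_ : Countable P) (C : R →ₐ[F] P) (_ : Univ C)
      (ev : P →ₐ[F] R), ∀ c, ev (C c) = c := by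
  let C0 : R →ₐ[F] (Rˣ → R) := Pi.constAlgHom F Rˣ R
  let G0 : Rˣ → R := fun u => u
  let H0 : Rˣ → R := fun u => ↑u⁻¹
  let A := Algebra.adjoin F (Set.range C0 ∪ {G0, H0})
  have hG : G0 ∈ A := Algebra.subset_adjoin (by simp)
  have hH : H0 ∈ A := Algebra.subset_adjoin (by simp)
  have hC : ∀ c, C0 c ∈ A := fun c => Algebra.subset_adjoin (Or.inl ⟨c, rfl⟩)
  obtain ⟨S, k0, k1, k2⟩ := exists_closed (Set.range C0 ∪ {G0, H0})
    ((Set.countable_range _).union (Set.toFinite _).countable)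
    (fun x y => {x + y, x * y}) fun x y => (Set.toFinite _).countable
  let B : Subalgebra F (Rˣ → R) :=
    { carrier := S
      mul_mem' := fun {a b} ha hb => k2 a ha b hb (by simp)
      add_mem' := fun {a b} ha hb => k2 a ha b hb (by simp)
      algebraMap_mem' := fun l => k0 (Or.inl ⟨algebraMap F R l, rfl⟩) }
  have hAB : A ≤ B := Algebra.adjoin_le k0
  refine ⟨A, inferInstance, inferInstance, (k1.mono hAB).to_subtype, C0.codRestrict A hC,
    ⟨⟨G0, hG⟩, ⟨H0, hH⟩, Subtype.ext (funext fun u => u.mul_inv),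
      Subtype.ext (funext fun u => u.inv_mul), ?_, ?_⟩,
    (Pi.evalAlgHom F (fun _ => R) 1).comp A.val, fun c => rfl⟩
  · rintro ⟨p, hp⟩
    induction hp using Algebra.adjoin_induction with
    | mem x hx =>
      refine Subring.subset_closure ?_
      rcases hx with ⟨c, rfl⟩ | rfl | rfl
      · exact Or.inl ⟨c, rfl⟩
      · exact Or.inr (Or.inl rfl)
      · exact Or.inr (Or.inr rfl)
    | algebraMap r => exact Subring.subset_closure (Or.inl ⟨algebraMap F R r, rfl⟩)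
    | add x y _ _ hx hy => exact add_mem hx hy
    | mul x y _ _ hx hy => exact mul_mem hx hy
  · intro u u' h1 h2
    let Φ : Rˣ → Rˣ := fun g => ⟨u.1 g, u'.1 g, congrFun (congrArg Subtype.val h1) g,
      congrFun (congrArg Subtype.val h2) g⟩
    let ψ : (Rˣ → R) →ₐ[F] (Rˣ → R) := AlgHom.pi fun g => Pi.evalAlgHom F (fun _ => R) (Φ g)
    have : A ≤ A.comap ψ := Algebra.adjoin_le (by
      rintro _ (⟨c, rfl⟩ | rfl | rfl)
      exacts [hC c, u.2, u'.2])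
    exact ⟨(ψ.comp A.val).codRestrict A fun p => this p.2, fun c => rfl, rfl, rfl⟩

end Z54
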