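import Pool.Agent.Lib.MP_1e63be_al.Z54.GReg
import Pool.Agent.Lib.MP_1e63be_al.Z87.Lock

/-! The gluing step. -/

namespace Z54

open Z87

theorem stG (F : Type) [Field F] [Infinite F] : St_G F := by
  intro R _ _ _ G I hI QQ hQQ hNU LL hLL J hJ hJI hIJ
  have : Nontrivial R := ⟨1, 0, G.nt⟩
  have : Countable F := (algebraMap F R).injective.countable
  obtain ⟨P, _, _, _, C, U, ev, hev⟩ := exists_univ F R
  let Γ : Game C := ⟨GS I J, Mv U, fun h => h.1, Mv.comp⟩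
  let s0 : GS I J := ⟨1, 1, 1, 1, 0, 0, by simp, by simp, by simp, by simp, by simp, by simp,
    by simp, by simp, by simp, by simp⟩
  obtain ⟨T, _, _, _, f, st, κ, h1, h2, -, h3⟩ := Γ.extn G hI hQQ hNU hLL ev hev s0
    (fun s p => Γ.reg G (fun s => GS.g s U) (fun s => GS.g' s U) (fun s => s.t * s.ts)
      (fun s => s.v * s.vs) (fun s => GS.ag s U) (fun s => GS.gb s U) (fun s => GS.bb s) True
      (fun _ s => ⟨GS.gg s U, GS.gg s.swap U.swap, GS.gb s.swap U.swap⟩)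
      (fun s => ⟨_, s, Mv.refl U s, 0, by simp⟩)
      (fun s e Λ l' l a1 a2 a3 a4 a5 => hstepG G hI.1 hJ.1 U s e Λ l' l a1 a2 a3 a4 (a5 trivial))
      s p (by
        refine Subring.closure_le.2 ?_ (U.gen p)
        have c : ∀ c, C c ∈ Subring.closure (Set.range C ∪
          {z | z = GS.g s U ∨ (True ∧ z = GS.g' s U)}) :=
          fun c => Subring.subset_closure (Or.inl ⟨c, rfl⟩)
        rintro _ (⟨c', rfl⟩ | rfl | rfl)
        · exact c c'
        · rw [GS.G_eq s U]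
          exact mul_mem (mul_mem (c _) (Subring.subset_closure (Or.inr (Or.inl rfl)))) (c _)
        · rw [show U.H = _ from GS.G_eq s.swap U.swap]
          exact mul_mem (mul_mem (c _)
            (Subring.subset_closure (Or.inr (Or.inr ⟨trivial, rfl⟩)))) (c _)))
    (fun Q hQ s p => hredG G hI.1 hJ.1 U s hI.2 hJ.2 hJI hIJ (hNU Q hQ) p)
    (fun s p => hSG G hI.1 hJ.1 U s hI.2 hJ.2 hJI hIJ p)
    (fun L s p => hleftG G hI.1 hJ.1 U s hI.2 hJ.2 hJI hIJ L p)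
    (fun (i : I × J) s _ => s.ts * i.2.1 = 0 ∧ s.vs * i.1.1 = 0)
    (fun i s _ => exh G hI.1 hJ.1 U s i.2.2 i.1.2)
  have e : ∀ n, κ n (GS.X (st n) U) = κ 0 (GS.X (st 0) U) ∧
      κ n (GS.Y (st n) U) = κ 0 (GS.Y (st 0) U) := fun n => by
    obtain ⟨k, φ, ψ, a1, a2, a3, a4⟩ := h2.dir n 0
    exact ⟨by rw [← a3, ← a4, a1.2.1, a2.2.1], by rw [← a3, ← a4, a1.2.2, a2.2.2]⟩
  refine ⟨T, _, _, inferInstance, f, h1, κ 0 (GS.X (st 0) U), κ 0 (GS.Y (st 0) U), fun i hi => ?_,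
    fun j hj => ?_, ?_, ?_⟩
  · obtain ⟨n, -, -, -, a⟩ := h3 (⟨i, hi⟩, 0) 0
    rw [← (e n).1, ← h2.const n, ← map_mul, GS.Xr _ U a, h2.const]
    exact ext_of f (RI.mul (GS.xJ _) _)
  · obtain ⟨n, -, -, a, -⟩ := h3 (0, ⟨j, hj⟩) 0
    rw [← (e n).2, ← h2.const n, ← map_mul]
    erw [GS.Xr (GS.swap (st n)) U.swap a]
    rw [h2.const]
    exact ext_of f (RI.mul (GS.yI _) _)
  · rw [← map_mul, GS.XY, map_one, sub_self]; exact zero_mem _
  · rw [← map_mul, GS.YX, map_one, sub_self]; exact zero_mem _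

end Z54
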