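import Pool.Agent.Lib.MP_1e63be_al.Z87.U2

/-! One-letter games with a shift and shrink move: left promises and regularity. -/

namespace Z54

open Z87 MulOpposite

variable {F R P : Type} [Field F] [Ring R] [Algebra F R] [Ring P] [Algebra F P]

theorem reduce1 {ι : Fam R} {f : R →ₐ[F] P} {Λ : Finset ℕ} {x : P} {row : ℕ → R} {s : P}
    (h : Rep ι f Λ (fun _ => x) row s) (hi : ¬ Ind F Λ row) : ∃ k ∈ Λ, ∃ g s', s = f g * s' ∧
      Rep ι f (Λ.erase k) (fun _ => x) (fun l => row l * g) s' := by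
  classical
  simp only [Ind, not_forall] at hi
  obtain ⟨c, hc, a, ha, hne⟩ := hi
  obtain ⟨k, hk, hm⟩ := (Λ.filter fun l => c l ≠ 0).exists_max_image id
    ⟨a, Finset.mem_filter.2 ⟨ha, hne⟩⟩
  obtain ⟨hk, hck⟩ := Finset.mem_filter.1 hk
  have hm' : ∀ l ∈ Λ, k < l → c l = 0 := fun l hl e => by
    by_contra e'
    exact absurd (hm l (Finset.mem_filter.2 ⟨hl, e'⟩)) (not_le.2 e)
  have e1 : row k = ∑ l ∈ Λ.erase k, (-((c k)⁻¹ * c l)) • row l := by
    rw [← Finset.add_sum_erase _ _ hk] at hc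
    have := congrArg ((c k)⁻¹ • ·) hc
    simp only [smul_add, smul_smul, inv_mul_cancel₀ hck, one_smul, smul_zero, Finset.smul_sum]
      at this
    simp only [neg_smul, Finset.sum_neg_distrib]
    exact eq_neg_of_add_eq_zero_left this
  obtain ⟨s', hs'⟩ : ∃ s', s' = f (ι.i 0) + ∑ l ∈ Λ.erase k,
    f (ι.i (l + 1)) * (x * (f (row l) * s)) := ⟨_, rfl⟩
  obtain ⟨g, hg⟩ : ∃ g, g = 1 + ι.i (k + 1) * ∑ l ∈ Λ.erase k,
    (-((c k)⁻¹ * c l)) • ι.j (l + 1) := ⟨_, rfl⟩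
  have e2 : ∀ l ∈ Λ.erase k, f (ι.j (l + 1)) * s' = x * (f (row l) * s) := fun l hl => by
    rw [hs', mul_add, ← map_mul, ι.z1, ((ι.dual _).map f).mul_sum _ hl]; simp
  have e3 : s = f g * s' := by
    rw [hg, map_add, map_one, add_mul, one_mul, map_mul, map_sum, mul_assoc, Finset.sum_mul,
      Finset.sum_congr rfl fun l hl => by rw [map_smul, smul_mul_assoc, e2 l hl]]
    conv_lhs => rw [h.eq, ← Finset.sum_erase_add _ _ hk, ← add_assoc, ← hs', e1]
    simp only [map_sum, map_smul, Finset.sum_mul, Finset.mul_sum, smul_mul_assoc, mul_smul_comm]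
  refine ⟨k, hk, g, s', e3, ?_, fun l hl m hm => ?_⟩
  · simp only [map_mul, mul_assoc, ← e3]
    exact hs'
  · have hl' := Finset.mem_of_mem_erase hl
    rw [hg, mul_add, add_mul, mul_one, h.tri l hl' m hm, zero_add]
    rcases le_or_gt l k with e | e
    · rw [← mul_assoc, h.tri l hl' k e, zero_mul, zero_mul]
    · rw [mul_assoc, mul_assoc, Finset.sum_mul, Finset.sum_eq_zero, mul_zero, mul_zero]
      intro l' hl'
      by_cases e' : l' = m
      · rw [hm' l' (Finset.mem_of_mem_erase hl') (by omega)]; simp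
      · rw [smul_mul_assoc, ι.ne (by omega), smul_zero]

theorem reduce {ι : Fam R} {f : R →ₐ[F] P} {Λ : Finset ℕ} {x : P} {row : ℕ → R} {s : P} {a : R}
    (ha : f a * x = x) (aa : a * a = a) (h : Rep ι f Λ (fun _ => x) row s) :
    ∃ Λ' ⊆ Λ, ∃ g s', s = f g * s' ∧ g * ι.E Λ' a = g ∧
      Rep ι f Λ' (fun _ => x) (fun l => row l * g) s' ∧ Ind F Λ' fun l => row l * g := by
  induction hn : Λ.card using Nat.strong_induction_on generalizing Λ row s with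
  | _ n ih =>
  have hE := h.E (a := a) fun _ _ => ha
  have h1 : Rep ι f Λ (fun _ => x) (fun l => row l * ι.E Λ a) s :=
    h.congr (h.tri.mul_E _ _) fun l hl => by rw [map_mul, mul_assoc, hE]
  by_cases hi : Ind F Λ fun l => row l * ι.E Λ a
  · exact ⟨Λ, subset_rfl, _, s, hE.symm, ι.E_E Λ aa, h1, hi⟩
  obtain ⟨k, hk, g, s', e3, h'⟩ := reduce1 h1 hi
  obtain ⟨Λ', a1, g', s'', a2, a3, a4, a5⟩ := ih _ (hn ▸ Finset.card_erase_lt_of_mem hk) h' rfl
  refine ⟨Λ', a1.trans (Finset.erase_subset _ _), ι.E Λ a * (g * g'), s'', ?_,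
    by rw [mul_assoc, mul_assoc, a3], ?_, ?_⟩
  · rw [map_mul, map_mul, mul_assoc, mul_assoc, ← a2, ← e3, hE]
  · simpa only [mul_assoc] using a4
  · simpa only [mul_assoc] using a5

/-- a representation with one letter and independent normalised rows -/
theorem rep1 (ι : Fam R) (f : R →ₐ[F] P) {x p : P} {a b : R} (ha : f a * x = x) (aa : a * a = a)
    (hb : x * f b = x) (bb : b * b = b) (hp : p ∈ Subring.closure (Set.range f ∪ {x})) :
    ∃ (Λ : Finset ℕ) (row : ℕ → R) (s : P) (n : R), Rep ι f Λ (fun _ => x) row s ∧ Ind F Λ row ∧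
      (∀ l, b * row l = row l) ∧ (∀ l, row l * ι.E Λ a = row l) ∧ n * ι.E Λ a = n ∧
      p = f n * s := by
  obtain ⟨Λ, xl, row, s, n, h1, h2, h3⟩ := rep ι f _ hp
  have h4 : Rep ι f Λ (fun _ => x) (fun l => b * row l) s :=
    h1.congr (fun l hl m hm => by rw [mul_assoc, h1.tri l hl m hm, mul_zero]) fun l hl => by
      rw [h2 l hl, map_mul, mul_assoc, ra hb]
  obtain ⟨Λ', -, g, s', a1, a0, a2, a3⟩ := reduce ha aa h4
  exact ⟨Λ', _, s', n * g, a2, a3, fun l => by rw [mul_assoc, ra bb],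
    fun l => by rw [mul_assoc, a0], by rw [mul_assoc, a0], by rw [h3, a1, map_mul, mul_assoc]⟩

/-- evaluation of a representation -/
theorem kill {P' : Type} [Ring P'] [Algebra F P'] {ι : Fam R} {f : R →ₐ[F] P} {f' : R →ₐ[F] P'}
    {Λ : Finset ℕ} {x : P} {row : ℕ → R} {s : P} {a : R} (h : Rep ι f Λ (fun _ => x) row s)
    (hE : ∀ l ∈ Λ, row l * ι.E Λ a = row l) (φ : P →ₐ[F] P') (hφ : ∀ c, φ (f c) = f' c) {U : R}
    (hU : ∀ l ∈ Λ, φ x * f' (row l * U) = f' (a * (ι.j (l + 1) * U))) :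
    φ s * f' (ι.j 0 * U) = f' (ι.E Λ a * U) := by
  refine (h.map φ hφ).kill ?_
  conv_lhs => rw [ι.E_mul, map_add, map_sum, map_mul]
  congr 1
  refine Finset.sum_congr rfl fun l hl => ?_
  rw [← map_mul, ra (hE l hl), hU l hl, map_mul]

theorem killR [Infinite F] (G : Good F R) (C : R →ₐ[F] P) {x p : P} {a b : R} (ha : C a * x = x)
    (hb : x * C b = x) (aa : a * a = a) (bb : b * b = b)
    (hp : p ∈ Subring.closure (Set.range C ∪ {x})) (V : RI R) {L : Ideal R} (hL : b ∉ L) :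
    (∃ k ∈ V, ∃ q, p = C k * q) ∨ ∃ u c δ w, c ∉ V ∧ a * δ = δ ∧ δ * b = δ ∧ w * b = w ∧ w ∉ L ∧
      ∀ φ : P →ₐ[F] P, (∀ c, φ (C c) = C c) → ∀ r, φ x = C δ + r * C w → φ p * C u = C c := by
  obtain ⟨ι⟩ := G.famN
  obtain ⟨Λ, row, s, n, h1, h2, h3, h4, h5, h6⟩ := rep1 ι C ha aa hb bb hp
  by_cases hn : n ∈ V
  · exact Or.inl ⟨_, hn, s, h6⟩
  obtain ⟨U, -, u1, W, u2⟩ := G.indK h2 Essn.top [pre n V] (by simpa using ⟨1, by simpa using hn⟩)
  obtain ⟨t, u, t1, t2, t3⟩ := G.smf (v := n * U) (u1 (pre n V) (by simp)) hL Λ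
    fun l => row l * U
  obtain ⟨d, d', d1, d2⟩ := G.li t2
  have u3 := u2.shrink' d1
  refine Or.inr ⟨ι.j 0 * (U * (u * d)), n * (U * (u * d)),
    (∑ l ∈ Λ, a * (ι.j (l + 1) * (U * (u * d))) * (d' * W l)) * b, t * b,
    by rwa [← mul_assoc], ?_, by rw [mul_assoc, bb], by rw [mul_assoc, bb], t3,
    fun φ hφ r hx => ?_⟩
  · rw [← mul_assoc, Finset.mul_sum]
    simp only [mul_assoc, ra aa]
  rw [h6, map_mul, hφ, mul_assoc, kill h1 (fun l _ => h4 l) φ hφ, ← map_mul, ra h5]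
  intro l hl
  rw [hx, add_mul, mul_assoc r, ← map_mul, ← map_mul, mul_assoc _ b, mul_assoc _ b, ra (h3 l),
    u3.sum_mul _ hl, ← mul_assoc (row l), ← mul_assoc t, ra (t1 l hl)]
  simp

theorem leftU [Infinite F] (G : Good F R) (C : R →ₐ[F] P) {x p : P} {a b : R} (ha : C a * x = x)
    (hb : x * C b = x) (aa : a * a = a) (bb : b * b = b)
    (hp : p ∈ Subring.closure (Set.range C ∪ {x})) (L : Ideal R) {J : RI R} (hJ : a ∉ J) :
    p ∈ lext C L ∨ ∃ u c δ w, c ∉ L ∧ a * δ = δ ∧ δ * b = δ ∧ a * w = w ∧ w ∉ J ∧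
      ∀ φ : P →ₐ[F] P, (∀ c, φ (C c) = C c) → ∀ r, φ x = C δ + C w * r → C u * φ p = C c := by
  let V : RI Rᵐᵒᵖ :=
    { carrier := {u | u.unop ∈ L}
      add_mem' := fun {a b} ha hb => L.add_mem ha hb
      zero_mem' := L.zero_mem
      smul_mem' := fun a x hx => L.mul_mem_left a.unop.unop hx }
  let L' : Ideal Rᵐᵒᵖ :=
    { carrier := {u | u.unop ∈ J}
      add_mem' := fun {a b} ha hb => J.add_mem ha hb
      zero_mem' := J.zero_mem
      smul_mem' := fun a x hx => RI.mul hx a.unop }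
  have hp' : op p ∈ Subring.closure (Set.range (AlgHom.op C) ∪ {op x}) := by
    induction hp using Subring.closure_induction with
    | mem z hz =>
      refine Subring.subset_closure ?_
      rcases hz with ⟨c, rfl⟩ | rfl
      exacts [Or.inl ⟨op c, rfl⟩, Or.inr rfl]
    | zero => exact zero_mem _
    | one => exact one_mem _
    | add _ _ _ _ h1 h2 => exact add_mem h1 h2
    | neg _ _ h => exact neg_mem h
    | mul _ _ _ _ h1 h2 => exact mul_mem h2 h1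
  rcases killR G.opp (AlgHom.op C) (a := op b) (b := op a) (congrArg op hb) (congrArg op ha)
    (congrArg op bb) (congrArg op aa) hp' V (L := L') hJ with
    ⟨k, h1, q, h2⟩ | ⟨u, c, δ, w, h1, h2, h3, h4, h5, h6⟩
  · exact Or.inl ((show p = q.unop * C k.unop from congrArg unop h2) ▸ lext_mul C h1 _)
  · exact Or.inr ⟨u.unop, c.unop, δ.unop, w.unop, h1, congrArg unop h3, congrArg unop h2,
      congrArg unop h4, h5, fun φ a1 r a2 => congrArg unop (h6 (AlgHom.op φ)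
        (fun c => congrArg op (a1 c.unop)) (op r) (congrArg op a2))⟩

theorem regU [Infinite F] (G : Good F R) (C : R →ₐ[F] P) (x : P) {a b : R} (hb : x * C b = x)
    (aa : a * a = a) (bb : b * b = b) {J : RI R} (hJ : a ∉ J) (e : R) (Λ : Finset ℕ)
    (l' l : ℕ → R) (he : e * e = e) (hΛ : Λ.Nonempty) (lb : ∀ i ∈ Λ, l i * b = l i)
    (hB : Ind F Λ fun i => (1 - e) * l' i * a) :
    ∃ δ w, a * δ = δ ∧ δ * b = δ ∧ a * w = w ∧ w ∉ J ∧
      ∀ φ : P →ₐ[F] P, (∀ c, φ (C c) = C c) → ∀ r, φ x = C δ + C w * r →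
      ∃ i0 ∈ Λ, ∃ ω v w c : R,
        ω * e = 0 ∧ (∀ i ∈ Λ, i ≠ i0 → C ω * (C (l' i) * φ x - C (l i)) = 0) ∧
        C ω * (C (l' i0) * φ x - C (l i0)) = C w ∧ v * w * v = v ∧
        (C (l' i0) * φ x - C (l i0)) * C (1 - v * w) = C c := by
  obtain ⟨m, hm⟩ := hΛ
  have h1 : (1 : R) ∉ (⊥ : Ideal R) := by simpa using G.nt
  obtain ⟨u, -, ζ, u2⟩ := G.indL hB h1
  obtain ⟨t, t1, w, a1, -, a3, a4⟩ := G.shl hJ h1 Λ fun i => u * ((1 - e) * l' i)
  have u3 := u2.shrink a1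
  refine ⟨a * ∑ k ∈ Λ, ζ k * t1 * (t * (u * (1 - e)) * l k + if k = m then b else 0), a * w,
    ra aa _, ?_, ra aa _, a4, fun φ hφ r hx => ?_⟩
  · rw [mul_assoc, Finset.sum_mul]
    refine congrArg _ (Finset.sum_congr rfl fun k hk => ?_)
    rw [mul_assoc, add_mul, mul_assoc _ (l k), lb k hk]
    split_ifs <;> simp [bb]
  have key : ∀ i ∈ Λ, C (t * (u * (1 - e))) * (C (l' i) * φ x - C (l i))
      = C (if i = m then b else 0) := by
    intro i hi
    have e1 := u3.mul_sum (fun k => t * (u * (1 - e)) * l k + if k = m then b else 0) hi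
    have e2 := a3 i hi
    simp only [mul_assoc] at e1 e2
    rw [hx, mul_sub, mul_add, mul_add, ← mul_assoc (C (l' i)) _ r, ← mul_assoc _ _ r]
    simp only [← map_mul]
    simp only [mul_assoc, e1, e2, map_zero, zero_mul, add_zero, map_add, add_sub_cancel_left]
  refine ⟨m, hm, t * (u * (1 - e)), b, b, 0, by rw [mul_assoc, mul_assoc, sub_mul 1 e, he]; simp,
    fun i hi e => by rw [key i hi]; simp [e], by rw [key m hm, if_pos rfl], by rw [bb, bb], ?_⟩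
  have : φ x * C b = φ x := by rw [← hφ, ← map_mul, hb]
  rw [bb, map_sub, map_one, mul_sub, mul_one, sub_mul, mul_assoc _ _ (C b), this, ← map_mul,
    lb m hm]
  simp

end Z54

namespace Z87.US

variable {F R P : Type} [Field F] [Ring R] [Algebra F R] [Ring P] [Algebra F P] {U : US F R P}

theorem St.shrink' (s : U.St) {w δ : R} (h1 : s.a * δ = δ) (h2 : δ * s.b = δ) (h3 : s.a * w = w)
    (h4 : w ∉ U.J) : ∃ φ s', U.game.Mv s φ s' ∧ φ s.x = U.C δ + s'.x ∧ ∃ r, s'.x = U.C w * r := by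
  obtain ⟨φ, s', a1, ⟨c, a2⟩, -, -, a3⟩ := s.shrink (w := w) (by rwa [h3]) h1 h2
  exact ⟨φ, s', a1, a3, U.C c * s'.x, by rw [← mul_assoc, ← map_mul, ← h3, ← a2, s'.ax]⟩

theorem St.left [Infinite F] (s : U.St) (L : Ideal R) (p : P) : ∃ φ s', U.game.Mv s φ s' ∧
    (φ p ∈ lext U.C L ∨ ∃ r c, c ∉ L ∧ r * φ p - U.C c ∈ lext U.C L) := by
  obtain ⟨φ, s1, m1, -⟩ := s.id
  rcases Z54.leftU U.G U.C s1.ax s1.xb s1.ha s1.bb (m1.2.1 p) L s1.haJ with
    h | ⟨u, c, δ, w, h1, h2, h3, h4, h5, h6⟩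
  · exact ⟨φ, s1, m1, Or.inl h⟩
  obtain ⟨ψ, s2, m2, a1, r, a2⟩ := s1.shrink' h2 h3 h4 h5
  refine ⟨_, s2, U.game.comp m1 m2, Or.inr ⟨U.C u, c, h1, ?_⟩⟩
  rw [AlgHom.comp_apply, h6 ψ m2.1 r (by rw [a1, a2]), sub_self]
  exact zero_mem _

theorem St.reg [Infinite F] (s : U.St) (p : P) :
    ∃ φ s', U.game.Mv s φ s' ∧ ∃ q, φ p * q * φ p = φ p := by
  obtain ⟨φ, s1, m1, -⟩ := s.id
  obtain ⟨ψ, s2, m2, h⟩ := U.game.reg U.G (fun s => St.x s) (fun _ => 0) (fun s => St.a s)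
    (fun s => St.b s) (fun s => St.ax s) (fun s => St.xb s) (fun s => St.bb s) False
    (fun h => h.elim)
    (fun s => by
      obtain ⟨φ, s', a1, -, -, a2, a3⟩ := St.id s
      exact ⟨φ, s', a1, 0, by simp [a2, a3]⟩)
    (fun s e Λ l' l a1 a2 a3 a4 _ => by
      obtain ⟨δ, w, h2, h3, h4, h5, h6⟩ := Z54.regU U.G U.C (St.x s) (St.xb s) (St.ha s) (St.bb s)
        (St.haJ s) e Λ l' l a1 a2 a3 a4
      obtain ⟨ψ, s2, m2, b1, r, b2⟩ := St.shrink' s h2 h3 h4 h5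
      exact ⟨ψ, s2, m2, ⟨δ, b1⟩, h6 ψ m2.1 r (by rw [b1, b2])⟩)
    s1 (φ p) (by simpa [Cl] using m1.2.1 p)
  exact ⟨_, s2, U.game.comp m1 m2, h⟩

end Z87.US
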