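import Pool.Agent.Lib.MP_1e63be_al.Z54.ULeft

/-! The sealing step: reduction of a polynomial modulo a right ideal. -/

namespace Z87.US

variable {F R P : Type} [Field F] [Ring R] [Algebra F R] [Ring P] [Algebra F P] {U : US F R P}

theorem St.kill54 (s : U.St) : ∃ (K : RI R) (B : Finset R), Essn K ∧ (∀ β ∈ B, β ≠ 0) ∧
    ∀ (Λ Λ0 : Finset ℕ) (y W z : ℕ → R) (τ : ℕ → ℕ), Λ0 ⊆ Λ → DualOn Λ W y →
      (∀ l ∈ Λ, s.bt (τ l) * y l = y l) → (∀ l ∈ Λ, y l ∈ K) →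
      (∀ β ∈ B, ∃ ω, ω * β ≠ 0 ∧ ∀ l ∈ Λ, ω * y l = 0) → (∀ l ∈ Λ, z l ∈ U.J) →
      (∀ l ∈ Λ, s.a * z l = z l) →
      ∃ φ s', U.game.Mv s φ s' ∧ s'.a = s.a ∧ (∀ l ∈ Λ0, φ s.x * U.C (y l) = U.C (z l)) ∧
        ∀ l ∈ Λ, l ∉ Λ0 → φ s.x * U.C (y l) = s'.x * U.C (y l) ∧ s'.bt (τ l) * y l = y l := by
  obtain ⟨K, B, h1, h2, h3⟩ := s.move
  refine ⟨K, B, h1, h2, fun Λ Λ0 y W z τ a0 a1 a2 a3 a4 a5 a6 => ?_⟩
  have d : DualOn Λ (fun l => W l * s.bt (τ l)) y := ⟨fun l hl => by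
    rw [mul_assoc, a2 l hl, a1.1 l hl], fun l hl m hm e => by
      by_cases e' : τ l = τ m
      · rw [mul_assoc, e', a2 m hm, a1.2 l hl m hm e]
      · rw [mul_assoc, ← a2 m hm, ra (s.orth _ _ e'), zero_mul, mul_zero]⟩
  have d0 := d.mono a0
  have k : ∀ (c : ℕ → R), ∀ l ∈ Λ, l ∉ Λ0 → (∑ m ∈ Λ0, c m * (W m * s.bt (τ m))) * y l = 0 := by
    intro c l hl e
    rw [Finset.sum_mul, Finset.sum_eq_zero]
    intro m hm
    rw [mul_assoc, d.2 m (a0 hm) l hl fun e' => e (e' ▸ hm), mul_zero]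
  have pp : ∀ c : ℕ → R, (∑ m ∈ Λ0, c m * (W m * s.bt (τ m))) *
      (∑ m ∈ Λ0, y m * (W m * s.bt (τ m))) = ∑ m ∈ Λ0, c m * (W m * s.bt (τ m)) := fun c => by
    rw [Finset.mul_sum]
    exact Finset.sum_congr rfl fun m hm => by rw [← mul_assoc, d0.sum_mul c hm]
  obtain ⟨φ, s', m1, m2, m3, m4, m5⟩ := h3 s.a (∑ m ∈ Λ0, y m * (W m * s.bt (τ m)))
    (∑ m ∈ Λ0, z m * (W m * s.bt (τ m))) s.ha s.haJ s.ha (pp y)
    (fun t => by
      rw [Finset.sum_mul, Finset.mul_sum]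
      refine Finset.sum_congr rfl fun m hm => ?_
      by_cases e : τ m = t
      · rw [← e, ra (a2 m (a0 hm)), mul_assoc, mul_assoc, s.idem]
      · rw [mul_assoc, mul_assoc, s.orth _ _ e, ← a2 m (a0 hm)]
        simp [mul_assoc, ra (s.orth _ _ (Ne.symm e))])
    (K.sum_mem fun m hm => RI.mul (a3 m (a0 hm)) _)
    (fun β hβ e => by
      obtain ⟨ω, b1, b2⟩ := a4 β hβ
      refine b1 ?_
      have := congrArg (ω * ·) e
      simp only [sub_mul, mul_sub, Finset.sum_mul, Finset.mul_sum, mul_assoc] at this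
      rw [Finset.sum_eq_zero fun m hm => by rw [ra (b2 m (a0 hm)), zero_mul]] at this
      simpa using this)
    (by rw [pp z]; exact U.J.sum_mem fun m hm => RI.mul (a5 m (a0 hm)) _)
    (by rw [Finset.mul_sum]; exact Finset.sum_congr rfl fun m hm => ra (a6 m (a0 hm)) _)
    (by rw [Finset.sum_mul]
        exact Finset.sum_congr rfl fun m hm => by rw [mul_assoc, mul_assoc, s.bt_b])
  refine ⟨φ, s', m1, m2, fun l hl => ?_, fun l hl e => ⟨?_, ?_⟩⟩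
  · rw [m5, add_mul, ← map_mul, d0.sum_mul z hl, ← s'.xb, mul_assoc, ← map_mul, m4, mul_assoc,
      sub_mul, d0.sum_mul y hl]
    simp
  · rw [m5, add_mul, ← map_mul, k z l hl e, map_zero, zero_add]
  · rw [m3, mul_assoc, sub_mul, k y l hl e, one_mul, sub_zero, a2 l hl]

/-- the conclusion of the reduction -/
def St.Red (s : U.St) (Q K0 : RI R) (p : P) : Prop :=
  ∃ φ s', U.game.Mv s φ s' ∧ ((∃ c, φ p - U.C c ∈ ext U.C Q) ∨
    (∃ u ∈ K0, ∃ c, c ∉ Q ∧ φ p * U.C u - U.C c ∈ ext U.C Q) ∨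
    ∃ u d y y' τ, φ p * U.C u - U.C d * s'.x * U.C y ∈ ext U.C Q ∧ y' * y = 1 ∧
      s'.bt τ * y = y ∧ ∀ z, d * (s'.a * z) ∈ Q ↔ s'.a * z ∈ U.J)

theorem St.red_aux [Infinite F] (ι : Fam R) (Q : RI R) {K0 : RI R} (hK : Essn K0) (N : ℕ) :
    ∀ (s : U.St) (p : P) (Λ : Finset ℕ) (row : ℕ → R) (σ : P) (n : R) (τ : ℕ → ℕ), Λ.card < N →
      Rep ι U.C Λ (fun _ => s.x) row σ → (∀ l ∈ Λ, s.bt (τ l) * row l = row l) →
      p - U.C n * σ ∈ ext U.C Q → s.Red Q K0 p := by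
  induction N with
  | zero => exact fun _ _ _ _ _ _ _ h => absurd h (Nat.not_lt_zero _)
  | succ N ih =>
  intro s p Λ' row' σ' n' τ hN h' ht' hp'
  obtain ⟨Λ, a0, g, σ, a1, a2, h, hi⟩ := Z54.reduce s.ax s.ha h'
  have ht : ∀ l ∈ Λ, s.bt (τ l) * (row' l * g) = row' l * g := fun l hl => ra (ht' l (a0 hl)) _
  have hE : ∀ l ∈ Λ, row' l * g * ι.E Λ s.a = row' l * g := fun l _ => by rw [mul_assoc, a2]
  have hn : n' * g * ι.E Λ s.a = n' * g := by rw [mul_assoc, a2]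
  rw [a1, ← mul_assoc, ← map_mul] at hp'
  generalize n' * g = n at hp' hn
  obtain ⟨row, hrow⟩ : ∃ row : ℕ → R, ∀ l, row' l * g = row l := ⟨_, fun _ => rfl⟩
  simp only [hrow] at h hi ht hE
  have up : ∀ {φ s'}, U.game.Mv s φ s' → ∀ u, φ p * u - U.C n * (φ σ * u) ∈ ext U.C Q := by
    intro φ s' m u
    have := RI.mul (ext_map U.C U.C φ m.1 hp') u
    rwa [map_sub, map_mul, m.1, sub_mul, mul_assoc] at this
  rcases Λ.eq_empty_or_nonempty with rfl | hne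
  · obtain ⟨φ, s', m, -⟩ := s.id
    refine ⟨φ, s', m, Or.inl ⟨n * ι.i 0, ?_⟩⟩
    have := up m 1
    rw [h.eq] at this
    simpa [m.1] using this
  obtain ⟨k, hk, hm⟩ := Λ.exists_max_image (fun l => l) hne
  obtain ⟨K1, B, k1, k2, k3⟩ := s.kill54
  obtain ⟨K2, k4, k5⟩ := Essn.all Λ (fun l => pre (row l) K1 ⊓ pre (s.a * ι.j (l + 1)) U.J)
    fun l _ => (k1.pre _).inf ((U.unif.essn U.G).pre _)
  have hK2 := k4.inf (hK.pre (ι.j 0))
  have mv : ∀ V : RI R, (∃ u ∈ K2 ⊓ pre (ι.j 0) K0, u ∉ V) → ∀ Λ0 ⊆ Λ,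
      ∃ u ∈ K2 ⊓ pre (ι.j 0) K0, u ∉ V ∧ ∃ W, DualOn Λ W (fun l => row l * u) ∧
      ∃ φ s', U.game.Mv s φ s' ∧ s'.a = s.a ∧
        (∀ l ∈ Λ0, φ s.x * U.C (row l * u) = U.C (s.a * (ι.j (l + 1) * u))) ∧
        ∀ l ∈ Λ, l ∉ Λ0 → φ s.x * U.C (row l * u) = s'.x * U.C (row l * u) ∧
          s'.bt (τ l) * (row l * u) = row l * u := by
    intro V hV Λ0 h0
    obtain ⟨u, u1, u2, ⟨W, u3⟩, u4⟩ := U.G.indS hi hK2 [V] (by simpa using hV) B k2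
    exact ⟨u, u1, u2 V (by simp), W, u3, k3 Λ Λ0 _ W (fun l => s.a * (ι.j (l + 1) * u)) τ h0 u3
      (fun l hl => ra (ht l hl) _) (fun l hl => ((k5 u).1 u1.1 l hl).1) u4
      (fun l hl => mul_assoc s.a _ u ▸ ((k5 u).1 u1.1 l hl).2) fun l _ => ra s.ha _⟩
  by_cases hq : ∃ u ∈ K2 ⊓ pre (ι.j 0) K0, u ∉ pre n Q
  · obtain ⟨u, u1, u2, W, -, φ, s', m, -, m2, -⟩ := mv _ hq Λ subset_rfl
    refine ⟨φ, s', m, Or.inr (Or.inl ⟨_, u1.2, n * u, u2, ?_⟩)⟩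
    have := up m (U.C (ι.j 0 * u))
    rwa [Z54.kill h hE φ m.1 m2, ← map_mul, ra hn] at this
  push Not at hq
  have rk : ∀ l ∈ Λ, row l * ι.i (k + 1) = 0 := fun l hl => h.tri l hl k (hm l hl)
  have hd : ∀ z, s.a * z ∈ U.J → n * ι.i (k + 1) * (s.a * z) ∈ Q := fun z hz => by
    rw [mul_assoc]
    refine hq _ ⟨(k5 _).2 fun l hl => ⟨mem_pre.2 ?_, mem_pre.2 ?_⟩, mem_pre.2 ?_⟩
    · rw [ra (rk l hl), zero_mul]; exact K1.zero_mem
    · rw [mul_assoc]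
      by_cases e : l = k
      · rwa [e, ra (ι.self _), one_mul, ra s.ha]
      · rw [ra (ι.ne (by omega)), zero_mul, mul_zero]; exact U.J.zero_mem
    · rw [ra (ι.z0 _), zero_mul]; exact K0.zero_mem
  by_cases hz : ∃ z, n * ι.i (k + 1) * (s.a * z) ∈ Q ∧ s.a * z ∉ U.J
  · obtain ⟨z, z1, z2⟩ := hz
    obtain ⟨φ, s1, m, ⟨c, m1⟩, m2, -, m3⟩ := s.shrink z2 (δ := 0) (by simp) (by simp)
    rw [map_zero, zero_add] at m3
    have h1 := h.map φ m.1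
    simp only [m3] at h1
    obtain ⟨σ1, e1⟩ : ∃ σ1, σ1 = U.C (ι.i 0) + ∑ l ∈ Λ.erase k,
      U.C (ι.i (l + 1)) * (s1.x * (U.C (row l) * φ σ)) := ⟨_, rfl⟩
    have e2 : φ σ = σ1 + U.C (ι.i (k + 1)) * (s1.x * (U.C (row k) * φ σ)) := by
      conv_lhs => rw [h1.eq, ← Finset.sum_erase_add _ _ hk, ← add_assoc, ← e1]
    have e3 : ∀ l ∈ Λ, U.C (row l) * σ1 = U.C (row l) * φ σ := fun l hl => by
      conv_rhs => rw [e2, mul_add, ← mul_assoc, ← map_mul, rk l hl, map_zero, zero_mul, add_zero]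
    obtain ⟨ψ, s2, m4, m5⟩ := ih s1 (φ p) (Λ.erase k) row σ1 n τ
      (by have := Finset.card_erase_lt_of_mem hk; have := Finset.card_le_card a0; omega)
      ⟨by
        conv_lhs => rw [e1]
        congr 1
        exact Finset.sum_congr rfl fun l hl => by rw [e3 l (Finset.mem_of_mem_erase hl)],
        fun l hl => h.tri l (Finset.mem_of_mem_erase hl)⟩
      (fun l hl => by rw [m2, ht l (Finset.mem_of_mem_erase hl)])
      (by
        have := up m 1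
        rw [mul_one, mul_one, e2, ← s1.ax, m1] at this
        refine RI.cast (add_mem this (ext_mul U.C (RI.mul z1 c) (s1.x * (U.C (row k) * φ σ)))) ?_
        simp only [map_mul]
        noncomm_ring)
    exact ⟨ψ.comp φ, s2, U.game.comp m m4, m5⟩
  push Not at hz
  obtain ⟨u, u1, -, W, u3, φ, s', m, m1, m2, m3⟩ := mv ⊥ (by
    obtain ⟨c, c1, c2⟩ := hK2 1 U.G.nt
    exact ⟨_, c2, c1⟩) (Λ.erase k) (Finset.erase_subset _ _)
  obtain ⟨m4, m5⟩ := m3 k hk (Finset.notMem_erase _ _)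
  refine ⟨φ, s', m, Or.inr (Or.inr ⟨ι.j 0 * u, n * ι.i (k + 1), row k * u, W k, τ k, ?_,
    u3.1 k hk, m5, fun z => by rw [m1]; exact ⟨hz z, hd z⟩⟩)⟩
  have e1 : φ σ * U.C (ι.j 0 * u) = U.C (ι.E Λ s.a * u) + U.C (ι.i (k + 1)) *
      (s'.x * U.C (row k * u) - U.C (s.a * (ι.j (k + 1) * u))) := by
    refine (h.map φ m.1).kill ?_
    have e2 : ∀ l ∈ Λ, U.C (row l) * (U.C (ι.E Λ s.a * u) + U.C (ι.i (k + 1)) *
        (s'.x * U.C (row k * u) - U.C (s.a * (ι.j (k + 1) * u)))) = U.C (row l * u) := by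
      intro l hl
      rw [mul_add, ← mul_assoc, ← map_mul, ← map_mul, rk l hl, ra (hE l hl)]
      simp
    rw [Finset.sum_congr rfl fun l hl => by rw [e2 l hl], ← Finset.sum_erase_add _ _ hk, m4,
      Finset.sum_congr rfl fun l hl => by rw [m2 l hl], ι.E_mul, ← Finset.sum_erase_add _ _ hk]
    simp only [map_add, map_sum, map_mul, mul_sub]
    abel
  have := up m (U.C (ι.j 0 * u))
  rw [e1] at this
  refine RI.cast (add_mem this (sub_mem (ext_of U.C (hq u u1)) (ext_of U.C (hd (ι.j (k + 1) * u)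
    (mul_assoc s.a _ u ▸ ((k5 u).1 u1.1 k hk).2))))) ?_
  rw [mul_add, ← map_mul U.C n, ra hn]
  simp only [map_mul]
  noncomm_ring

theorem St.red54 [Infinite F] (s : U.St) (Q : RI R) {K0 : RI R} (hK : Essn K0) (p : P) :
    s.Red Q K0 p := by
  obtain ⟨ι⟩ := U.G.famN
  obtain ⟨φ, s1, m, -⟩ := s.id
  obtain ⟨Λ, xl, row, σ, n, h1, h2, h3⟩ := rep ι U.C (Set.range fun τ => s1.x * U.C (s1.bt τ))
    (p := φ p) (Subring.closure_le.2 (by
      rintro _ (⟨c, rfl⟩ | rfl)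
      · exact Subring.subset_closure (Or.inl ⟨c, rfl⟩)
      · have e : s1.x = ∑ τ ∈ Finset.range s1.n, s1.x * U.C (s1.bt τ) := by
          rw [← Finset.mul_sum, ← map_sum, ← s1.hb, s1.xb]
        refine (congrArg (· ∈ _) e).mpr ?_
        exact sum_mem fun τ _ => Subring.subset_closure (Or.inr ⟨τ, rfl⟩)) (m.2.1 p))
  choose! τ hτ using h2
  obtain ⟨ψ, s2, m2, h⟩ := St.red_aux ι Q hK _ s1 (φ p) Λ (fun l => s1.bt (τ l) * row l) σ n τ
    (Nat.lt_succ_self _) (h1.congr (fun l hl m hm => by rw [mul_assoc, h1.tri l hl m hm, mul_zero])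
      fun l hl => by rw [← hτ l hl, map_mul, mul_assoc, mul_assoc])
    (fun l _ => ra (s1.idem _) _) (by rw [h3, sub_self]; exact zero_mem _)
  exact ⟨ψ.comp φ, s2, U.game.comp m m2, h⟩

end Z87.US
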